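import Pool.Agent.Lib_helper73.MS.Sys

/-!
# Mutual stationarity: blocks of coordinates
-/

namespace Pool.Agent.Lib_helper73.MS

open Cardinal Ordinal Set Filter

/-- The cardinal `ℵ_n` as a set of ordinals. -/
abbrev K (n : ℕ) : Type 1 := Set.Iio (ω_ (n : Ordinal.{0}))

instance (n : ℕ) : Nonempty (K n) := ⟨⟨0, Ordinal.omega_pos _⟩⟩

/-- Sequences of length `ω_(f n)` in `ω_n`. -/
abbrev En (f : ℕ → ℕ) (n : ℕ) : Type 1 := K (f n) → K n

variable {l : ℕ} {f : ℕ → ℕ}

/-- Every function `H : E_n → ω_n` which depends only on the values at the places below `i`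
satisfies `H s < s i` almost everywhere. -/
def Big (n : ℕ) (T : Sys l (En f n)) : Prop :=
  ∀ (r : T.R) (H : En f n → K n) (i : K (f n)),
    (∀ s s' : En f n, (∀ j < i, s j = s' j) → H s = H s') → ∀ᶠ s in T.U r, H s < s i

/-- A base point. -/
noncomputable def pt (f : ℕ → ℕ) : ∀ n, En f n := fun n _ => Classical.arbitrary (K n)

/-- The block system for the coordinates `a, ..., a + k - 1`. -/
noncomputable def Blk (T : ∀ n, Sys l (En f n)) : ℕ → ℕ → Sys l (∀ n, En f n)
  | _, 0 => Sys.triv l (pt f)
  | a, k + 1 => (Blk T (a + 1) k).ext a (T a)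

theorem Blk_dec (T : ∀ n, Sys l (En f n)) (μ : Cardinal.{1}) (k : ℕ) :
    ∀ a, (∀ n, a ≤ n → n < a + k → (T n).Dec μ) → (Blk T a k).Dec μ := by
  induction k with
  | zero => exact fun a _ => Sys.triv_dec l _ μ
  | succ k ih =>
    intro a h
    exact Sys.ext_dec _ _ _ (ih (a + 1) fun n h1 h2 => h n (by omega) (by omega))
      (h a le_rfl (by omega))

theorem Blk_big (T : ∀ n, Sys l (En f n)) (m : ℕ) (i : K (f m)) (H : (∀ n, En f n) → K m)
    (hH : ∀ e e' : (∀ n, En f n), (∀ n, m < n → e n = e' n) → (∀ j < i, e m j = e' m j) →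
      H e = H e') (k : ℕ) :
    ∀ a, (∀ n, a ≤ n → n < a + k → Big n (T n)) → a ≤ m → m < a + k →
      ∀ r : (Blk T a k).R, ∀ᶠ y in (Blk T a k).U r, H y < y m i := by
  induction k with
  | zero => intro a _ h1 h2; omega
  | succ k ih =>
    intro a hT h1 h2 r
    refine (ExtR.eventually (Blk T (a + 1) k) a (T a)).2 ?_
    rcases eq_or_lt_of_le h1 with h | h
    · subst h
      refine Eventually.of_forall fun e => ?_
      have := hT a le_rfl (by omega) (r.snd e) (fun s => H (Function.update e a s)) i
        (fun s s' hs => hH _ _ (fun n hn => by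
          rw [Function.update_of_ne (by omega), Function.update_of_ne (by omega)])
          (fun j hj => by simpa using hs j hj))
      filter_upwards [this] with s hs
      simpa using hs
    · filter_upwards [ih (a + 1) (fun n h3 h4 => hT n (by omega) (by omega)) h (by omega) r.fst]
        with e he
      refine Eventually.of_forall fun s => ?_
      have h5 : H (Function.update e a s) = H e := hH _ _
        (fun n hn => Function.update_of_ne (by omega) _ _)
        (fun j _ => by rw [Function.update_of_ne (by omega)])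
      rw [h5, Function.update_of_ne (by omega)]
      exact he

end Pool.Agent.Lib_helper73.MS
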