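import Pool.Agent.Lib_helper73.MS.Blk

/-!
# Mutual stationarity: cardinal arithmetic
-/

namespace Pool.Agent.Lib_helper73.MS

open Cardinal Ordinal Set Filter

/-- `ℵ_n` in the universe of our types. -/
noncomputable abbrev al (n : ℕ) : Cardinal.{1} := ℵ_ (n : Ordinal.{1})

/-- `ω_n`. -/
noncomputable abbrev om (n : ℕ) : Ordinal.{0} := ω_ (n : Ordinal.{0})

theorem al_mono {a b : ℕ} (h : a ≤ b) : al a ≤ al b := by
  simpa [al] using h

theorem al_lt {a b : ℕ} (h : a < b) : al a < al b := by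
  simpa [al] using h

theorem om_mono {a b : ℕ} (h : a ≤ b) : om a ≤ om b := by
  simpa [om] using h

theorem om_lt {a b : ℕ} (h : a < b) : om a < om b := by
  simpa [om] using h

theorem aleph0_le_al (a : ℕ) : ℵ₀ ≤ al a := Cardinal.aleph0_le_aleph _

theorem mk_K (n : ℕ) : #(K n) = al n := mk_Iio_omega n

theorem cof_om (n : ℕ) : (om n).cof = ℵ_ (n : Ordinal.{0}) := by
  cases n with
  | zero => simp [om]
  | succ n =>
    have := Cardinal.cof_omega_add_one (n : Ordinal.{0})
    simpa [om] using this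

theorem cof_lift_om (n : ℕ) : (Ordinal.lift.{1} (om n)).cof = al n := by
  rw [← Ordinal.lift_cof, cof_om]
  simp [al]

theorem isLimit_om (n : ℕ) : Order.IsSuccLimit (om n) := by
  rw [om, ← Cardinal.ord_aleph]
  exact Cardinal.isSuccLimit_ord (Cardinal.aleph0_le_aleph _)

theorem succ_al (n : ℕ) : Order.succ (al n) = al (n + 1) := by
  simp [al, Cardinal.succ_aleph]

/-- GCH at `ℵ_n` for `n ≥ l` (in the universe of our types). -/
def GCHfrom (l : ℕ) : Prop := ∀ n, l ≤ n → (2 : Cardinal.{1}) ^ al n = al (n + 1)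

theorem GCHfrom_of {l : ℕ}
    (h : ∀ n : ℕ, l ≤ n → (2 : Cardinal.{0}) ^ (ℵ_ (n : Ordinal.{0})) =
      ℵ_ ((n + 1 : ℕ) : Ordinal.{0})) : GCHfrom l := by
  intro n hn
  have := congrArg Cardinal.lift.{1} (h n hn)
  simpa [al, Cardinal.lift_power] using this

variable {l : ℕ} {f : ℕ → ℕ}

theorem pow_al {n j : ℕ} (hG : GCHfrom l) (hn : l + 1 ≤ n) (hj : j < n) :
    al n ^ al j = al n := by
  obtain ⟨k, rfl⟩ : ∃ k, n = k + 1 := ⟨n - 1, by omega⟩
  rw [← hG k (by omega), ← Cardinal.power_mul, Cardinal.mul_eq_left (aleph0_le_al k)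
    (al_mono (by omega)) (Cardinal.aleph_pos _).ne']

theorem pow_al_le {n j : ℕ} (hG : GCHfrom l) (hj : j ≤ l) :
    al n ^ al j ≤ al (max n (l + 1)) := by
  rcases le_or_gt (l + 1) n with h | h
  · rw [pow_al hG h (by omega), max_eq_left h]
  · rw [max_eq_right h.le]
    calc al n ^ al j ≤ (2 ^ al l) ^ al l := by
          refine (Cardinal.power_le_power_right ?_).trans
            (Cardinal.power_le_power_left ?_ (al_mono hj))
          · exact (al_mono (by omega)).trans (Cardinal.cantor _).le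
          · exact (lt_of_lt_of_le (Cardinal.aleph_pos _) (Cardinal.cantor _).le).ne'
      _ = 2 ^ al l := by rw [← Cardinal.power_mul, Cardinal.mul_eq_self (aleph0_le_al l)]
      _ = al (l + 1) := hG l le_rfl

theorem mk_En_le (hG : GCHfrom l) (hf : ∀ n, f n ≤ l) (n : ℕ) :
    #(En f n) ≤ al (max n (l + 1)) := by
  have : #(En f n) = al n ^ al (f n) := by
    rw [En, ← Cardinal.power_def, mk_K, mk_K]
  rw [this]
  exact pow_al_le hG (hf n)

end Pool.Agent.Lib_helper73.MS
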