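import Pool.Agent.Lib_helper73.MS.Lim

/-!
# Mutual stationarity: the closed set
-/

namespace Pool.Agent.Lib_helper73.MS

open Cardinal Ordinal Set Filter

variable {l : ℕ} {f : ℕ → ℕ} {T : ∀ n, Sys l (En f n)} {X : Set ℕ} {c : ℕ} {J : Type}
  {F : J → List VV → VV}

/-- the conditions on the point chosen for the block above `x` -/
structure Good (L : Lim T X c F) (x : ℕ) (y : Pt f) : Prop where
  elim : ∀ m, ∀ H ∈ L.N, Rel l f X x m H → ∃ g ∈ L.N, Supp (YY l X) g x ∧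
    (∀ p e, (g p e).1 < om m) ∧ ∀ p e, H p (asg X x y e) = g p e
  big : ∀ m, x < m → m < nx X x → ∀ i : K (f m), ∀ H ∈ L.N, (∀ p e, (H p e).1 < om m) →
    (∀ p p' e e', (∀ n, m < n → e n = e' n) → (∀ j < i, e m j = e' m j) → H p e = H p' e') →
    ∀ p, (H p y).1 < (y m i).1

theorem mk_sigma_le (hf : ∀ n, f n ≤ l) : #(Σ m : ℕ, K (f m)) ≤ al l := by
  rw [Cardinal.mk_sigma]
  have h1 : Cardinal.sum (fun n : ℕ => #(K (f n))) ≤
      Cardinal.sum (fun _ : ℕ => al l) := Cardinal.sum_le_sum _ _ fun n => by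
        rw [mk_K]
        exact al_mono (hf n)
  refine h1.trans ?_
  rw [Cardinal.sum_const, Cardinal.mk_nat, Cardinal.lift_aleph0, Cardinal.lift_uzero]
  calc ℵ₀ * al l ≤ al l * al l := mul_le_mul' (aleph0_le_al l) le_rfl
    _ = al l := Cardinal.mul_eq_self (aleph0_le_al l)

theorem exists_good (hf : ∀ n, f n ≤ l) (hB : ∀ n, l + 2 ≤ n → Big n (T n)) (L : Lim T X c F)
    {x : ℕ} (hx : l + 1 ≤ x) : ∃ y, Good L x y := by
  classical
  have hlt : al l < al (l + 1) := al_lt (by omega)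
  have hcc := (SS T X x).cc (L.r x)
  choose g hg1 hg2 hg3 hg4 using fun (q : ℕ × L.N) (h : Rel l f X x q.1 q.2.1) =>
    L.dcd x q.1 q.2.1 q.2.2 h
  have h1 : ∀ᶠ y in (SS T X x).U (L.r x), ∀ q : ℕ × L.N, ∀ h : Rel l f X x q.1 q.2.1,
      ∀ p e, q.2.1 p (asg X x y e) = g q h p e := by
    have hcard : #(ℕ × L.N) < al (l + 1) := by
      refine lt_of_le_of_lt ?_ hlt
      rw [Cardinal.mk_prod]
      simp only [Cardinal.mk_nat, Cardinal.lift_aleph0, Cardinal.lift_uzero]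
      calc ℵ₀ * #L.N ≤ al l * al l := mul_le_mul' (aleph0_le_al l) L.card
        _ = al l := Cardinal.mul_eq_self (aleph0_le_al l)
    rw [Filter.eventually_cardinal_forall hcard]
    intro q
    by_cases h : Rel l f X x q.1 q.2.1
    · filter_upwards [hg4 q h] with y hy _ using hy
    · exact Eventually.of_forall fun y h' => absurd h' h
  have h2 : ∀ᶠ y in (SS T X x).U (L.r x), ∀ q : (Σ m : ℕ, K (f m)) × L.N, x < q.1.1 →
      q.1.1 < nx X x → (∀ p e, (q.2.1 p e).1 < om q.1.1) →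
      (∀ p p' e e', (∀ n, q.1.1 < n → e n = e' n) → (∀ j < q.1.2, e q.1.1 j = e' q.1.1 j) →
        q.2.1 p e = q.2.1 p' e') → ∀ p, (q.2.1 p y).1 < (y q.1.1 q.1.2).1 := by
    have hcard : #((Σ m : ℕ, K (f m)) × L.N) < al (l + 1) := by
      refine lt_of_le_of_lt ?_ hlt
      rw [Cardinal.mk_prod]
      simp only [Cardinal.lift_id]
      calc #(Σ m : ℕ, K (f m)) * #L.N ≤ al l * al l := mul_le_mul' (mk_sigma_le hf) L.card
        _ = al l := Cardinal.mul_eq_self (aleph0_le_al l)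
    rw [Filter.eventually_cardinal_forall hcard]
    rintro ⟨⟨m, i⟩, H⟩
    by_cases h : x < m ∧ m < nx X x ∧ (∀ p e, (H.1 p e).1 < om m) ∧
      (∀ p p' e e', (∀ n, m < n → e n = e' n) → (∀ j < i, e m j = e' m j) →
        H.1 p e = H.1 p' e')
    · obtain ⟨h3, h4, h5, h6⟩ := h
      have p0 : K (l + 1) := Classical.arbitrary _
      have := Blk_big T m i (fun e => ⟨(H.1 p0 e).1, h5 p0 e⟩)
        (fun e e' h7 h8 => by simp only [h6 p0 p0 e e' h7 h8])
        (nx X x - (x + 1)) (x + 1) (fun n h7 _ => hB n (by omega)) h3 (by omega) (L.r x)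
      filter_upwards [this] with y hy _ _ _ _ p
      rw [h6 p p0 y y (fun _ _ => rfl) (fun _ _ => rfl)]
      exact hy
    · refine Eventually.of_forall fun y h3 h4 h5 h6 => absurd ⟨h3, h4, h5, h6⟩ h
  have := (SS T X x).nb (L.r x)
  obtain ⟨y, hy1, hy2⟩ := (h1.and h2).exists
  exact ⟨y, fun m H hH hrel => ⟨g (m, ⟨H, hH⟩) hrel, hg1 _ _, hg2 _ _, hg3 _ _,
    hy1 (m, ⟨H, hH⟩) hrel⟩, fun m h1 h2 i H hH h3 h4 => hy2 (⟨m, i⟩, ⟨H, hH⟩) h1 h2 h3 h4⟩

/-- the block of `n` -/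
noncomputable def bk (l : ℕ) (X : Set ℕ) (n : ℕ) : ℕ :=
  open Classical in Nat.findGreatest (fun x => x ∈ X ∨ x = l + 1) (n - 1)

theorem bk_spec (hX : X.Infinite) {n : ℕ} (hn : l + 2 ≤ n) :
    (bk l X n ∈ X ∨ bk l X n = l + 1) ∧ bk l X n < n ∧ n ≤ nx X (bk l X n) := by
  classical
  have h1 : bk l X n ∈ X ∨ bk l X n = l + 1 :=
    Nat.findGreatest_spec (P := fun x => x ∈ X ∨ x = l + 1) (m := l + 1) (n := n - 1) (by omega)
      (Or.inr rfl)
  have h2 : bk l X n ≤ n - 1 := Nat.findGreatest_le _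
  refine ⟨h1, by omega, ?_⟩
  by_contra hcon
  push Not at hcon
  have h3 := nx_spec hX (bk l X n)
  have h4 : nx X (bk l X n) ≤ bk l X n :=
    Nat.le_findGreatest (P := fun x => x ∈ X ∨ x = l + 1) (by omega) (Or.inl h3.1)
  omega

theorem bk_eq (hXl : ∀ x ∈ X, l + 2 ≤ x) {x n : ℕ} (hx : x ∈ X ∨ x = l + 1) (h1 : x < n)
    (h2 : n < nx X x) : bk l X n = x := by
  classical
  have hxl : l + 1 ≤ x := by
    rcases hx with h | h
    · have := hXl x h
      omega
    · omega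
  apply le_antisymm
  · by_contra hcon
    push Not at hcon
    have h3 : bk l X n ∈ X ∨ bk l X n = l + 1 :=
      Nat.findGreatest_spec (P := fun x => x ∈ X ∨ x = l + 1) (m := x) (n := n - 1) (by omega) hx
    have h4 : bk l X n ≤ n - 1 := Nat.findGreatest_le _
    rcases h3 with h3 | h3
    · have := nx_le h3 hcon
      omega
    · omega
  · exact Nat.le_findGreatest (P := fun x => x ∈ X ∨ x = l + 1) (by omega) hx

/-- the point -/
noncomputable def cen (l : ℕ) (X : Set ℕ) (y : ℕ → Pt f) : Pt f := fun n => y (bk l X n) n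

theorem asg_cen (hXl : ∀ x ∈ X, l + 2 ≤ x) (y : ℕ → Pt f) {x : ℕ} (hx : x ∈ X ∨ x = l + 1) :
    asg X x (y x) (cen l X y) = cen l X y := by
  funext n
  unfold asg
  split_ifs with h
  · unfold cen
    rw [bk_eq hXl hx h.1 h.2]
  · rfl

theorem elim_one (hXl : ∀ x ∈ X, l + 2 ≤ x) {L : Lim T X c F} {y : ℕ → Pt f}
    (hy : ∀ x, l + 1 ≤ x → Good L x (y x)) {z m : ℕ} {H : Fn l f} (hH : H ∈ L.N)
    (hrel : Rel l f X z m H) (hinv : Inv H) :
    ∃ g ∈ L.N, Supp (YY l X) g z ∧ (∀ p e, (g p e).1 < om m) ∧ Inv g ∧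
      ∀ p, H p (cen l X y) = g p (cen l X y) := by
  have hz := hXl z hrel.1
  obtain ⟨g, h1, h2, h3, h4⟩ := (hy z (by omega)).elim m H hH hrel
  refine ⟨g, h1, h2, h3, ?_, fun p => ?_⟩
  · obtain ⟨θ, hθ⟩ := hinv
    refine ⟨θ, fun p e e' he => ?_⟩
    rw [← h4, ← h4]
    refine hθ _ _ _ fun n j hj => ?_
    unfold asg
    split_ifs
    · rfl
    · exact he n j hj
  · rw [← h4, asg_cen hXl y (Or.inl hrel.1)]

theorem elim_all (hX : X.Infinite) (hXl : ∀ x ∈ X, l + 2 ≤ x) {L : Lim T X c F} {y : ℕ → Pt f}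
    (hy : ∀ x, l + 1 ≤ x → Good L x (y x)) {z0 m : ℕ} (hz0 : z0 ∈ X) (hm : m ≤ z0)
    {H : Fn l f} (hH : H ∈ L.N) (hv : ∀ p e, (H p e).1 < om m) (hinv : Inv H) :
    ∃ g ∈ L.N, Supp (YY l X) g z0 ∧ (∀ p e, (g p e).1 < om m) ∧ Inv g ∧
      ∀ p, H p (cen l X y) = g p (cen l X y) := by
  have key : ∀ z, z ∈ X → z0 ≤ z → ∀ H ∈ L.N, Supp (YY l X) H z → (∀ p e, (H p e).1 < om m) →
      Inv H → ∃ g ∈ L.N, Supp (YY l X) g z0 ∧ (∀ p e, (g p e).1 < om m) ∧ Inv g ∧
      ∀ p, H p (cen l X y) = g p (cen l X y) := by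
    intro z
    induction z using Nat.strong_induction_on with
    | _ z ih =>
      intro hz hz0z H hH hs hv hinv
      rcases eq_or_lt_of_le hz0z with rfl | hlt
      · exact ⟨H, hH, hs, hv, hinv, fun _ => rfl⟩
      · have hz2 := hXl z hz
        obtain ⟨h1, h2, h3⟩ := bk_spec (l := l) hX hz2
        have h4 : z0 ≤ bk l X z := by
          classical
          exact Nat.le_findGreatest (P := fun x => x ∈ X ∨ x = l + 1) (by omega) (Or.inl hz0)
        have h5 : bk l X z ∈ X := by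
          rcases h1 with h1 | h1
          · exact h1
          · have := hXl z0 hz0
            omega
        obtain ⟨g, g1, g2, g3, g4, g5⟩ := elim_one hXl hy (z := bk l X z) (m := m) hH
          ⟨h5, by omega, hs.mono h3, hv⟩ hinv
        obtain ⟨g', g1', g2', g3', g4', g5'⟩ := ih _ h2 h5 h4 g g1 g2 g3 g4
        exact ⟨g', g1', g2', g3', g4', fun p => (g5 p).trans (g5' p)⟩
  obtain ⟨k, hk⟩ := L.fs H hH
  obtain ⟨z, hz, hkz⟩ := hX.exists_gt (max k z0)
  exact key z hz ((le_max_right _ _).trans hkz.le) H hH (hk.mono ((le_max_left _ _).trans hkz.le))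
    hv hinv

/-- Values below `ω_m` for `m ∈ X` are bounded by constants. -/
theorem bound_X (hG : GCHfrom l) (hf : ∀ n, f n ≤ l) (hX : X.Infinite)
    (hXl : ∀ x ∈ X, l + 2 ≤ x) {L : Lim T X c F} {y : ℕ → Pt f}
    (hy : ∀ x, l + 1 ≤ x → Good L x (y x)) {m : ℕ} (hm : m ∈ X)
    {H : Fn l f} (hH : H ∈ L.N) (hinv : Inv H) {p} (hv : (H p (cen l X y)).1 < om m) :
    ∃ v : VV, cst v ∈ L.N ∧ v.1 < om m ∧ (H p (cen l X y)).1 ≤ v.1 := by
  obtain ⟨g, h1, h2, h3, h4, h5⟩ := elim_all hX hXl hy hm (le_refl m) (L.cut m H hH)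
    (fun p e => cut_lt m H p e) (hinv.cut m)
  have hml := hXl m hm
  have hcst : supl m g = cst (supl m g p (cen l X y)) := by
    funext q e
    refine supl_congr m g fun q' e'' => h2.cut m _ _ _ fun n hn hnm => ?_
    simp [low, hnm]
  refine ⟨supl m g p (cen l X y), ?_, supl_lt _ _ _ _, ?_⟩
  · rw [← hcst]
    exact L.supl m g h1
  · rw [← cut_of_lt hv, h5 p]
    exact le_supl hG hf hml g (h3 _ _)

/-- Values below `ω_m` for `m ∉ X` are bounded by the coordinate `m` of the point. -/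
theorem bound_Y (hG : GCHfrom l) (hf : ∀ n, f n ≤ l) (hX : X.Infinite)
    (hXl : ∀ x ∈ X, l + 2 ≤ x) {L : Lim T X c F} {y : ℕ → Pt f}
    (hy : ∀ x, l + 1 ≤ x → Good L x (y x)) {m : ℕ} (hml : l + 2 ≤ m) (hm : m ∉ X)
    {H : Fn l f} (hH : H ∈ L.N) {p} (hv : (H p (cen l X y)).1 < om m)
    {θ : ∀ n, K (f n)} (hθ : ∀ p e e', (∀ n, ∀ j < θ n, e n j = e' n j) → H p e = H p e') :
    ∃ i : K (f m), (H p (cen l X y)).1 < (cen l X y m i).1 := by
  have hinv : Inv H := ⟨θ, hθ⟩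
  obtain ⟨hb1, hb2, hb3⟩ := bk_spec (l := l) hX hml
  set x := bk l X m with hxdef
  have hxl : l + 1 ≤ x := by
    rcases hb1 with h | h
    · have := hXl x h
      omega
    · omega
  obtain ⟨hn1, hn2⟩ := nx_spec hX x
  have hmn : m < nx X x := lt_of_le_of_ne hb3 fun h => hm (h ▸ hn1)
  obtain ⟨g, h1, h2, h3, h4, h5⟩ := elim_all hX hXl hy hn1 hmn.le (L.cut m H hH)
    (fun p e => cut_lt m H p e) (hinv.cut m)
  obtain ⟨θ', hθ'⟩ := h4.supl m
  have h6 := (hy x hxl).big m hb2 hmn (θ' m) (supl m g) (L.supl m g h1)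
    (fun p e => supl_lt _ _ _ _) ?_ p
  · refine ⟨θ' m, ?_⟩
    have h7 : (cen l X y) m = y x m := by
      unfold cen
      rw [← hxdef]
    have h8 : supl m g p (cen l X y) = supl m g p (y x) := by
      refine supl_congr m g fun q e'' => h2.cut m _ _ _ fun n hn hnx => ?_
      unfold low
      split_ifs with h
      · rfl
      · unfold cen
        rw [bk_eq hXl hb1 (by omega) hnx]
    rw [h7]
    refine lt_of_le_of_lt ?_ h6
    rw [← h8, ← cut_of_lt hv, h5 p]
    exact le_supl hG hf hml g (h3 _ _)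
  · intro p p' e e' he1 he2
    let e1 : Pt f := fun n => if n < m then e' n else e n
    have h9 : supl m g p e = supl m g p' e1 := by
      refine supl_congr m g fun q e'' => ?_
      have : low m e'' e = low m e'' e1 := by
        funext n
        unfold low
        split_ifs with h
        · rfl
        · simp only [e1, h, if_false]
      rw [this]
    have h10 : supl m g p' e1 = supl m g p' e' := by
      refine hθ' _ _ _ fun n j hj => ?_
      rcases lt_trichotomy n m with h | h | h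
      · simp only [e1, h, if_true]
      · subst h
        simp only [e1, lt_irrefl, if_false]
        exact he2 j hj
      · simp only [e1, not_lt.2 h.le, if_false]
        rw [he1 n h]
    rw [h9, h10]

end Pool.Agent.Lib_helper73.MS
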