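import Pool.Agent.Lib_helper73.MS.Main

/-!
# Mutual stationarity: the theorem for first-order structures
-/

namespace Pool.Agent.Lib_helper73.MS

open Cardinal Ordinal Set Filter

instance : Nonempty VV := ⟨zv⟩

theorem exists_elementary {l : ℕ} {f : ℕ → ℕ} (hG : GCHfrom l) (hf : ∀ n, f n ≤ l)
    (hC : ∀ n, l + 2 ≤ n → GenCompact l n) (L : FirstOrder.Language.{0, 0}) [Countable L.Symbols]
    [L.Structure VV] :
    ∃ N : L.ElementarySubstructure VV, ∀ m, l + 1 ≤ m →
      sSup (tr (N : Set VV) m) < om m ∧ (sSup (tr (N : Set VV) m)).cof = ℵ_ (f m : Ordinal.{0}) := by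
  classical
  let J : Type := Σ n, (L.sum L.skolem₁).Functions n
  have hJ : Countable J := by
    have h1 : L.card ≤ ℵ₀ := Cardinal.mk_le_aleph0
    have h2 := FirstOrder.Language.card_functions_sum_skolem₁_le (L := L)
    exact Cardinal.mk_le_aleph0_iff.1 (h2.trans (max_le le_rfl h1))
  let F : J → List VV → VV := fun j vs =>
    if h : vs.length = j.1 then FirstOrder.Language.Structure.funMap j.2 (fun i => vs.get (i.cast h.symm))
    else zv
  obtain ⟨N, hN1, hN2⟩ := main hG hf hC F
  let S : (L.sum L.skolem₁).Substructure VV :=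
    { carrier := N
      fun_mem := by
        intro n g xs hxs
        have h1 := hN1 ⟨n, g⟩ (List.ofFn xs) (by
          intro v hv
          obtain ⟨i, rfl⟩ := (List.mem_ofFn' xs v).1 hv
          exact hxs i)
        have h2 : F ⟨n, g⟩ (List.ofFn xs) = FirstOrder.Language.Structure.funMap g xs := by
          have h3 : (List.ofFn xs).length = n := List.length_ofFn
          simp only [F]
          rw [dif_pos h3]
          congr 1
          funext i
          simp
        rwa [h2] at h1 }
  refine ⟨S.elementarySkolem₁Reduct, fun m hm => ?_⟩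
  exact hN2 m hm

end Pool.Agent.Lib_helper73.MS
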