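import Pool.Agent.Lib_helper73.MS.Hyp

/-!
# Mutual stationarity: functions of finitely many coordinates
-/

namespace Pool.Agent.Lib_helper73.MS

open Cardinal Ordinal Set Filter

/-- `ℵ_ω` as a set of ordinals. -/
abbrev VV : Type 1 := Set.Iio (ω_ (ω : Ordinal.{0}))

/-- The points. -/
abbrev Pt (f : ℕ → ℕ) : Type 1 := ∀ n, En f n

/-- The functions of a parameter below `ω_(l+1)` and a point with values below `ℵ_ω`. -/
abbrev Fn (l : ℕ) (f : ℕ → ℕ) : Type 1 := K (l + 1) → Pt f → VV

theorem om_lt_omw (m : ℕ) : om m < ω_ (ω : Ordinal.{0}) := by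
  simp [om]

theorem omw_pos : (0 : Ordinal.{0}) < ω_ (ω : Ordinal.{0}) := Ordinal.omega_pos _

/-- `0` -/
def zv : VV := ⟨0, omw_pos⟩

variable {l : ℕ} {f : ℕ → ℕ}

theorem mk_fin_le (hG : GCHfrom l) (hf : ∀ n, f n ≤ l) {m : ℕ} (hm : l + 2 ≤ m) :
    #(K (l + 1) × (∀ n : Fin m, En f n)) ≤ al (m - 1) := by
  have h1 : #(∀ n : Fin m, En f n) ≤ al (m - 1) := by
    rw [Cardinal.mk_pi]
    calc Cardinal.prod (fun n : Fin m => #(En f n)) ≤ Cardinal.prod (fun _ : Fin m => al (m - 1)) :=
          Cardinal.prod_le_prod _ _ fun n => (mk_En_le hG hf n).trans (al_mono (by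
            have := n.2
            omega))
      _ ≤ al (m - 1) := by
          rw [Cardinal.prod_const]
          simp only [Cardinal.mk_fin, Cardinal.lift_natCast, Cardinal.lift_id']
          exact_mod_cast Cardinal.power_nat_le (aleph0_le_al (m - 1))
  rw [Cardinal.mk_prod]
  simp only [Cardinal.lift_id]
  calc #(K (l + 1)) * #(∀ n : Fin m, En f n) ≤ al (m - 1) * al (m - 1) :=
        mul_le_mul' (by rw [mk_K]; exact al_mono (by omega)) h1
    _ = al (m - 1) := Cardinal.mul_eq_self (aleph0_le_al _)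

/-- the point with the coordinates of `e'` below `m` and those of `e` from `m` on -/
def low (m : ℕ) (e' e : Pt f) : Pt f := fun n => if n < m then e' n else e n

/-- `H` if the value is below `ω_m` and `0` otherwise -/
noncomputable def cut (m : ℕ) (H : Fn l f) : Fn l f := fun p e =>
  open Classical in if (H p e).1 < om m then H p e else zv

theorem cut_lt (m : ℕ) (H : Fn l f) (p e) : (cut m H p e).1 < om m := by
  unfold cut
  split_ifs with h
  · exact h
  · exact Ordinal.omega_pos _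

theorem cut_of_lt {m : ℕ} {H : Fn l f} {p e} (h : (H p e).1 < om m) : cut m H p e = H p e :=
  if_pos h

/-- the values over which the supremum is taken -/
def supset (m : ℕ) (H : Fn l f) (e : Pt f) : Set Ordinal.{0} :=
  range fun q : K (l + 1) × Pt f => (cut m H q.1 (low m q.2 e)).1

theorem sSup_supset_lt (hG : GCHfrom l) (hf : ∀ n, f n ≤ l) {m : ℕ} (hm : l + 2 ≤ m)
    (H : Fn l f) (e : Pt f) : sSup (supset m H e) < om m := by
  classical
  apply Ordinal.sSup_lt_of_lt_cof
  · rw [cof_lift_om]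
    have hsub : supset m H e ⊆ range fun q : K (l + 1) × (∀ n : Fin m, En f n) =>
        (cut m H q.1 (low m (fun n => if h : n < m then q.2 ⟨n, h⟩ else pt f n) e)).1 := by
      rintro _ ⟨⟨p, e'⟩, rfl⟩
      refine ⟨⟨p, fun n => e' n⟩, ?_⟩
      have : low m (fun n => if h : n < m then (fun k : Fin m => e' k) ⟨n, h⟩ else pt f n) e =
          low m e' e := by
        funext n
        by_cases h : n < m <;> simp [low, h]
      simp only [this]
    refine (Cardinal.mk_le_mk_of_subset hsub).trans_lt (Cardinal.mk_range_le.trans_lt ?_)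
    exact (mk_fin_le hG hf hm).trans_lt (al_lt (by omega))
  · rintro _ ⟨q, rfl⟩
    exact cut_lt _ _ _ _

/-- `o` if it is below `ω_m` and `0` otherwise -/
noncomputable def mkV (m : ℕ) (o : Ordinal.{0}) : VV :=
  open Classical in if h : o < om m then ⟨o, h.trans (om_lt_omw m)⟩ else zv

/-- the supremum over the parameter and the coordinates below `m` -/
noncomputable def supl (m : ℕ) (H : Fn l f) : Fn l f := fun _ e => mkV m (sSup (supset m H e))

theorem supl_eq (hG : GCHfrom l) (hf : ∀ n, f n ≤ l) {m : ℕ} (hm : l + 2 ≤ m)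
    (H : Fn l f) (p) (e : Pt f) : (supl m H p e).1 = sSup (supset m H e) := by
  unfold supl mkV
  rw [dif_pos (sSup_supset_lt hG hf hm H e)]

theorem supl_lt (m : ℕ) (H : Fn l f) (p) (e : Pt f) : (supl m H p e).1 < om m := by
  unfold supl mkV
  split_ifs with h
  · exact h
  · exact Ordinal.omega_pos _

theorem low_self (m : ℕ) (e : Pt f) : low m e e = e := by
  funext n
  simp [low]

theorem le_supl (hG : GCHfrom l) (hf : ∀ n, f n ≤ l) {m : ℕ} (hm : l + 2 ≤ m)
    (H : Fn l f) {p} {e : Pt f} (h : (H p e).1 < om m) : (H p e).1 ≤ (supl m H p e).1 := by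
  rw [supl_eq hG hf hm]
  apply le_csSup
  · refine ⟨om m, ?_⟩
    rintro _ ⟨q, rfl⟩
    exact (cut_lt _ _ _ _).le
  · refine ⟨⟨p, e⟩, ?_⟩
    simp only [low_self, cut_of_lt h]

theorem supl_congr (m : ℕ) (H : Fn l f) {p p'} {e e' : Pt f}
    (h : ∀ q e'', cut m H q (low m e'' e) = cut m H q (low m e'' e')) :
    supl m H p e = supl m H p' e' := by
  have : supset m H e = supset m H e' := by
    unfold supset
    congr 1
    funext q
    rw [h]
  unfold supl
  rw [this]

/-- the constant function -/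
def cst (o : VV) : Fn l f := fun _ _ => o

/-- the parameter -/
def par : Fn l f := fun p _ => ⟨p.1, p.2.trans (om_lt_omw _)⟩

/-- a coordinate -/
def crd (n : ℕ) (i : K (f n)) : Fn l f := fun _ e => ⟨(e n i).1, (e n i).2.trans (om_lt_omw _)⟩

/-- `H` depends only on the coordinates below `k` which are in `Y` -/
def Supp (Y : Set ℕ) (H : Fn l f) (k : ℕ) : Prop :=
  ∀ p e e', (∀ n ∈ Y, n < k → e n = e' n) → H p e = H p e'

theorem Supp.mono {Y : Set ℕ} {H : Fn l f} {k k' : ℕ} (h : Supp Y H k) (hk : k ≤ k') :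
    Supp Y H k' := fun p e e' he => h p e e' fun n hn hnk => he n hn (hnk.trans_le hk)

theorem Supp.cut {Y : Set ℕ} {H : Fn l f} {k : ℕ} (m : ℕ) (h : Supp Y H k) :
    Supp Y (cut m H) k := by
  intro p e e' he
  simp only [MS.cut, h p e e' he]

theorem Supp.supl {Y : Set ℕ} {H : Fn l f} {k : ℕ} (m : ℕ) (h : Supp Y H k) :
    Supp Y (supl m H) k := by
  intro p e e' he
  refine supl_congr m H fun q e'' => h.cut m q _ _ fun n hn hnk => ?_
  simp only [low, he n hn hnk]

theorem Supp.cst (Y : Set ℕ) (o : VV) (k : ℕ) : Supp Y (cst o : Fn l f) k :=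
  fun _ _ _ _ => rfl

theorem Supp.par (Y : Set ℕ) (k : ℕ) : Supp Y (par : Fn l f) k :=
  fun _ _ _ _ => rfl

theorem Supp.crd {Y : Set ℕ} {n : ℕ} (hn : n ∈ Y) (i : K (f n)) :
    Supp Y (crd n i : Fn l f) (n + 1) := by
  intro p e e' he
  simp only [MS.crd, he n hn (Nat.lt_succ_self n)]

/-- invariance: `H` depends on every coordinate only through a proper initial segment -/
def Inv (H : Fn l f) : Prop :=
  ∃ θ : ∀ n, K (f n), ∀ p e e', (∀ n, ∀ j < θ n, e n j = e' n j) → H p e = H p e'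

theorem Inv.cut {H : Fn l f} (m : ℕ) (h : Inv H) : Inv (cut m H) := by
  obtain ⟨θ, hθ⟩ := h
  refine ⟨θ, fun p e e' he => ?_⟩
  simp only [MS.cut, hθ p e e' he]

theorem Inv.supl {H : Fn l f} (m : ℕ) (h : Inv H) : Inv (supl m H) := by
  obtain ⟨θ, hθ⟩ := h.cut m
  refine ⟨θ, fun p e e' he => supl_congr m H fun q e'' => hθ _ _ _ fun n j hj => ?_⟩
  unfold low
  split_ifs
  · rfl
  · exact he n j hj

theorem Inv.cst (o : VV) : Inv (cst o : Fn l f) :=
  ⟨fun _ => Classical.arbitrary _, fun _ _ _ _ => rfl⟩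

theorem Inv.par : Inv (par : Fn l f) :=
  ⟨fun _ => Classical.arbitrary _, fun _ _ _ _ => rfl⟩

theorem add_one_lt_om {n : ℕ} {o : Ordinal.{0}} (h : o < om n) : o + 1 < om n :=
  (isLimit_om n).add_one_lt h

theorem Inv.crd (n : ℕ) (i : K (f n)) : Inv (crd n i : Fn l f) := by
  classical
  refine ⟨fun k => if h : k = n then ⟨i.1 + 1, by rw [h]; exact add_one_lt_om i.2⟩
    else Classical.arbitrary _, fun p e e' he => ?_⟩
  have : e n i = e' n i := by
    apply he n i
    simp only [dite_true]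
    exact Subtype.mk_lt_mk.2 (lt_add_one _)
  simp only [MS.crd, this]

/-- the supremum of the constants -/
noncomputable def bet (m : ℕ) (N : Set (Fn l f)) : Ordinal.{0} :=
  sSup {o | ∃ v : VV, cst v ∈ N ∧ v.1 < om m ∧ o = v.1 + 1}

theorem bet_lt {m : ℕ} (hm : l + 1 ≤ m) {N : Set (Fn l f)} (hN : #N ≤ al l) :
    bet m N < om m := by
  apply Ordinal.sSup_lt_of_lt_cof
  · rw [cof_lift_om]
    refine lt_of_le_of_lt ?_ (lt_of_le_of_lt hN (al_lt (by omega)))
    have hinj : ∃ F : {o | ∃ v : VV, (cst v : Fn l f) ∈ N ∧ v.1 < om m ∧ o = v.1 + 1} → N,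
        Function.Injective F := by
      choose v hv1 hv2 hv3 using fun o : {o | ∃ v : VV, (cst v : Fn l f) ∈ N ∧ v.1 < om m ∧
        o = v.1 + 1} => o.2
      refine ⟨fun o => ⟨cst (v o), hv1 o⟩, fun o o' h => ?_⟩
      have h1 : (cst (v o) : Fn l f) = cst (v o') := congrArg Subtype.val h
      have h2 : v o = v o' := congrFun (congrFun h1 (Classical.arbitrary _)) (pt f)
      exact Subtype.ext (by rw [hv3 o, hv3 o', h2])
    obtain ⟨F, hF⟩ := hinj
    exact Cardinal.mk_le_of_injective hF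
  · rintro _ ⟨v, _, h2, rfl⟩
    exact add_one_lt_om h2

theorem lt_bet {m : ℕ} {N : Set (Fn l f)} {v : VV} (hv : cst v ∈ N) (h : v.1 < om m) :
    v.1 < bet m N := by
  refine lt_of_lt_of_le (lt_add_one _) (le_csSup ⟨om m, ?_⟩ ⟨v, hv, h, rfl⟩)
  rintro _ ⟨v, _, h2, rfl⟩
  exact (add_one_lt_om h2).le

end Pool.Agent.Lib_helper73.MS
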