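import Pool.Agent.Lib_helper73.MS.Card

/-!
# Mutual stationarity: generic compactness
-/

namespace Pool.Agent.Lib_helper73.MS

open Cardinal Ordinal Set Filter

/-- `P_κ(κ⁺)` for `κ = ℵ_n`: the subsets of `ω_(n+1)` of cardinality less than `ℵ_n`. -/
abbrev Pk (n : ℕ) : Type 1 := {x : Set (K (n + 1)) // #x < al n}

/-- `ℵ_n` is generically `ℵ_(n+1)`-compact by an `ω_(l+1)`-closed forcing: there are an
`ω_(l+1)`-closed partial order `R` and (the filters `U r` of all sets which are forced by the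
condition `r` to be in) an `R`-name for a `V`-`ℵ_n`-complete fine `V`-ultrafilter on
`P_(ℵ_n)(ℵ_(n+1))`: the filters `U r` are proper, `ℵ_n`-complete and fine, they increase when the
condition gets stronger, and for every partition of `P_(ℵ_n)(ℵ_(n+1))` into fewer than `ℵ_n` pieces
every condition has an extension `r` such that one of the pieces is in `U r`. -/
def GenCompact (l n : ℕ) : Prop :=
  ∃ (R : Type 1) (_ : Preorder R) (_ : Nonempty R) (U : R → Filter (Pk n)),
    SeqClosed R (om (l + 1)) ∧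
    (∀ r r', r' ≤ r → U r' ≤ U r) ∧
    (∀ r, (U r).NeBot) ∧
    (∀ r, CardinalInterFilter (U r) (al n)) ∧
    (∀ r α, ∀ᶠ x in U r, α ∈ x.1) ∧
    (∀ r, ∀ β < om n, ∀ h : Pk n → Set.Iio β, ∃ r' ≤ r, ∃ γ, ∀ᶠ x in U r', h x = γ)

variable {l : ℕ} {f : ℕ → ℕ}

/-- The restriction of a sequence, padded by `0`. -/
noncomputable def pad {n : ℕ} (i : K (f n)) (s : En f n) : En f n := fun j =>
  open Classical in if j < i then s j else ⟨0, Ordinal.omega_pos _⟩

theorem bound_lt {n : ℕ} (φ : K (n + 1) → (En f n → K n)) (x : Pk n) (s : En f n) :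
    (⨆ α : x.1, ((φ α s).1 + 1)) < om n := by
  apply Ordinal.lift_iSup_add_one_lt_of_lt_cof (f := fun α : x.1 => (φ α s).1)
  · rw [cof_lift_om]
    simpa using x.2
  · exact fun i => (φ i s).2

/-- The sequence `s_x` with `s_x(i) = sup {φ_α(s_x ↾ i) + 1 : α ∈ x}`. -/
noncomputable def sx {n : ℕ} (φ : K (n + 1) → (En f n → K n)) (x : Pk n) : En f n :=
  WellFounded.fix (wellFounded_lt (α := K (f n))) fun i s =>
    ⟨⨆ α : x.1, ((φ α (fun j => open Classical in
      if h : j < i then s j h else ⟨0, Ordinal.omega_pos _⟩)).1 + 1), bound_lt φ x _⟩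

theorem sx_eq {n : ℕ} (φ : K (n + 1) → (En f n → K n)) (x : Pk n) (i : K (f n)) :
    sx φ x i = ⟨⨆ α : x.1, ((φ α (pad i (sx φ x))).1 + 1), bound_lt φ x _⟩ := by
  have h := WellFounded.fix_eq (wellFounded_lt (α := K (f n))) (fun i s =>
    (⟨⨆ α : x.1, ((φ α (fun j => open Classical in
      if h : j < i then s j h else ⟨0, Ordinal.omega_pos _⟩)).1 + 1), bound_lt φ x _⟩ : K n)) i
  rw [sx, h]
  rfl

theorem lt_sx {n : ℕ} (φ : K (n + 1) → (En f n → K n)) (x : Pk n) (α : K (n + 1))
    (hα : α ∈ x.1) (i : K (f n)) : φ α (pad i (sx φ x)) < sx φ x i := by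
  rw [sx_eq]
  change (φ α (pad i (sx φ x))).1 < ⨆ α : x.1, ((φ α (pad i (sx φ x))).1 + 1)
  refine lt_of_lt_of_le (lt_add_one _)
    (le_ciSup (f := fun α : x.1 => (φ α (pad i (sx φ x))).1 + 1) ?_ ⟨α, hα⟩)
  refine ⟨om n, ?_⟩
  rintro _ ⟨β, rfl⟩
  exact ((isLimit_om n).add_one_lt (φ β (pad i (sx φ x))).2).le

theorem exists_sys (hG : GCHfrom l) (hf : ∀ n, f n ≤ l) {n : ℕ} (hn : l + 2 ≤ n)
    (h : GenCompact l n) : ∃ T : Sys l (En f n), T.Dec (al (n - 1)) ∧ Big n T := by
  classical
  obtain ⟨R, pre, ne, U, h1, h2, h3, h4, h5, h6⟩ := h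
  -- enumerate all functions
  have hcard : #(En f n → K n) ≤ #(K (n + 1)) := by
    have h7 : #(En f n) ≤ al n := by
      have := mk_En_le hG hf n
      rwa [max_eq_left (by omega)] at this
    rw [← Cardinal.power_def, mk_K, mk_K, ← hG n (by omega)]
    calc al n ^ #(En f n) ≤ (2 ^ al n) ^ al n :=
          (Cardinal.power_le_power_right (Cardinal.cantor _).le).trans
            (Cardinal.power_le_power_left
              (lt_of_lt_of_le (Cardinal.aleph_pos _) (Cardinal.cantor _).le).ne' h7)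
      _ = 2 ^ al n := by rw [← Cardinal.power_mul, Cardinal.mul_eq_self (aleph0_le_al n)]
  obtain ⟨ψ⟩ := (Cardinal.le_def _ _).1 hcard
  let φ : K (n + 1) → (En f n → K n) := Function.invFun ψ
  have hφ : Function.Surjective φ := Function.invFun_surjective ψ.injective
  refine ⟨{ R := R, pre := pre, ne := ne, U := fun r => (U r).map (sx φ),
            mono := fun h => Filter.map_mono (h2 _ _ h),
            nb := fun r => by have := h3 r; infer_instance,
            cl := h1,
            cc := ?_ }, ?_, ?_⟩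
  · intro r
    refine ⟨fun A hA hAm => ?_⟩
    have : CardinalInterFilter (U r) (al (l + 1)) := by
      have := h4 r
      exact CardinalInterFilter.of_cardinalInterFilter_of_le (c := al n) _ (al_mono (by omega))
    rw [Filter.mem_map]
    have h8 : ∀ᶠ x in U r, ∀ B ∈ A, sx φ x ∈ B := by
      rw [Filter.eventually_cardinal_ball hA]
      exact fun B hB => hAm B hB
    filter_upwards [h8] with x hx
    exact fun B hB => hx B hB
  · intro r Z hZ g
    rw [← mk_K] at hZ
    obtain ⟨j⟩ := (Cardinal.le_def _ _).1 hZ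
    obtain ⟨r', hr', γ, hγ⟩ := h6 r (om (n - 1)) (om_lt (by omega)) (fun x => j (g (sx φ x)))
    have := h3 r'
    obtain ⟨x, hx⟩ := hγ.exists
    refine ⟨r', hr', g (sx φ x), ?_⟩
    rw [Filter.eventually_map]
    filter_upwards [hγ] with y hy
    exact j.injective (hy.trans hx.symm)
  · intro r H i hH
    obtain ⟨α, hα⟩ := hφ H
    rw [Filter.eventually_map]
    filter_upwards [h5 r α] with x hx
    have h9 := lt_sx φ x α hx i
    rw [hα] at h9
    have h10 : H (pad i (sx φ x)) = H (sx φ x) := hH _ _ fun j hj => by simp [pad, hj]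
    rwa [h10] at h9

end Pool.Agent.Lib_helper73.MS
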