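import Pool.Agent.Lib_helper73.MS.St

/-!
# Mutual stationarity: the limit of the recursion
-/

namespace Pool.Agent.Lib_helper73.MS

open Cardinal Ordinal Set Filter

variable {l : ℕ} {f : ℕ → ℕ}

/-- The result of the recursion of length `ω_c`. -/
structure Lim (T : ∀ n, Sys l (En f n)) (X : Set ℕ) (c : ℕ) {J : Type} (F : J → List VV → VV) where
  N : Set (Fn l f)
  card : #N ≤ al l
  fs : ∀ H ∈ N, ∃ k, Supp (YY l X) H k
  r : ∀ x, (SS T X x).R
  dcd : ∀ x m, ∀ H ∈ N, Rel l f X x m H → ∃ g ∈ N, Supp (YY l X) g x ∧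
    (∀ p e, (g p e).1 < om m) ∧ ∀ᶠ y in (SS T X x).U (r x), ∀ p e, H p (asg X x y e) = g p e
  alg : ∀ j, ∀ L : List (Fn l f), (∀ H ∈ L, H ∈ N) → app (F j) L ∈ N
  cut : ∀ m, ∀ H ∈ N, cut m H ∈ N
  supl : ∀ m, ∀ H ∈ N, supl m H ∈ N
  par : par ∈ N
  crd : ∀ n ∈ YY l X, ∀ i, crd n i ∈ N
  cof : ∀ m, l + 1 ≤ m → sSup {o | ∃ v : VV, cst v ∈ N ∧ v.1 < om m ∧ v.1 = o} < om m ∧
    (sSup {o | ∃ v : VV, cst v ∈ N ∧ v.1 < om m ∧ v.1 = o}).cof = ℵ_ (c : Ordinal.{0})

variable {T : ∀ n, Sys l (En f n)} {X : Set ℕ}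

/-- The initial state. -/
theorem exists_init (hf : ∀ n, f n ≤ l) : ∃ s : St T X, par ∈ s.N ∧
    ∀ n ∈ YY l X, ∀ i, crd n i ∈ s.N := by
  classical
  have hb : ℵ₀ ≤ al l := aleph0_le_al l
  let N0 : Set (Fn l f) := insert par (range fun q : Σ n : YY l X, K (f n) => crd q.1.1 q.2)
  have hc : #N0 ≤ al l := by
    refine (Cardinal.mk_insert_le).trans ?_
    have : #(range fun q : Σ n : YY l X, K (f n) => (crd q.1.1 q.2 : Fn l f)) ≤ al l := by
      refine Cardinal.mk_range_le.trans ?_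
      rw [Cardinal.mk_sigma]
      have h1 : Cardinal.sum (fun n : YY l X => #(K (f n))) ≤
          Cardinal.sum (fun _ : YY l X => al l) := Cardinal.sum_le_sum _ _ fun n => by
            rw [mk_K]
            exact al_mono (hf n)
      refine h1.trans ?_
      rw [Cardinal.sum_const]
      have h2 : Cardinal.lift.{1} #(YY l X) ≤ al l := by
        have : #(YY l X) ≤ ℵ₀ := Cardinal.mk_le_aleph0
        have := Cardinal.lift_le.{1}.2 this
        rw [Cardinal.lift_aleph0] at this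
        exact this.trans hb
      calc Cardinal.lift.{1} #(YY l X) * Cardinal.lift.{0} (al l) ≤ al l * al l :=
            mul_le_mul' h2 (by simp)
        _ = al l := Cardinal.mul_eq_self hb
    calc #(range fun q : Σ n : YY l X, K (f n) => (crd q.1.1 q.2 : Fn l f)) + 1 ≤ al l + al l :=
          add_le_add this (Cardinal.one_le_aleph0.trans hb)
      _ = al l := Cardinal.add_eq_self hb
  refine ⟨⟨N0, hc, ?_, fun x => Classical.arbitrary _⟩, mem_insert _ _, fun n hn i =>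
    mem_insert_of_mem _ ⟨⟨⟨n, hn⟩, i⟩, rfl⟩⟩
  rintro H (rfl | ⟨q, rfl⟩)
  · exact ⟨0, Supp.par _ _⟩
  · exact ⟨_, Supp.crd q.1.2 q.2⟩

theorem exists_lim (hG : GCHfrom l) (hf : ∀ n, f n ≤ l)
    (hT : ∀ n, l + 2 ≤ n → (T n).Dec (al (n - 1))) (hXl : ∀ x ∈ X, l + 2 ≤ x)
    {c : ℕ} (hc : c ≤ l) {J : Type} [Countable J] (F : J → List VV → VV) :
    Nonempty (Lim T X c F) := by
  classical
  obtain ⟨s0, h0p, h0c⟩ := exists_init (T := T) (X := X) hf
  choose next hnext using exists_step (X := X) hG hf hT hXl F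
  obtain ⟨s, hs0, hs⟩ := exists_seq (St.seqClosed (T := T) (X := X)) (fun _ => next)
    (fun _ q => (hnext q).le) s0
  have hcl : om c < om (l + 1) := om_lt (by omega)
  have hle : ∀ i < om (l + 1), ∀ j ≤ i, s i ≤ s j := by
    intro i hi j hj
    rcases eq_or_lt_of_le hj with rfl | h
    · exact le_rfl
    · exact (hs i hi j h).trans (hnext _).le
  have hsucc : ∀ i < om c, i + 1 < om c := fun i hi => add_one_lt_om hi
  have hstep : ∀ i < om c, (next (s i)).N ⊆ (s (i + 1)).N := fun i hi =>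
    (hs (i + 1) ((hsucc i hi).trans hcl) i (lt_add_one i)).1
  let N : Set (Fn l f) := ⋃ i : Set.Iio (om c), (s i).N
  have hmem : ∀ {H}, H ∈ N ↔ ∃ i < om c, H ∈ (s i).N := by
    intro H
    simp only [N, mem_iUnion, Subtype.exists, mem_Iio, exists_prop]
  choose r hr using fun x => (SS T X x).cl (om c) hcl (fun i => (s i).r x)
    (fun i j h => (hle j (j.2.trans hcl) i h).2 x)
  have hdir : ∀ L : List (Fn l f), (∀ H ∈ L, H ∈ N) → ∃ i < om c, ∀ H ∈ L, H ∈ (s i).N := by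
    intro L
    induction L with
    | nil => exact fun _ => ⟨0, Ordinal.omega_pos _, by simp⟩
    | cons a L ih =>
      intro hL
      obtain ⟨i, hi, h1⟩ := hmem.1 (hL a (by simp))
      obtain ⟨j, hj, h2⟩ := ih fun H hH => hL H (by simp [hH])
      refine ⟨max i j, max_lt hi hj, fun H hH => ?_⟩
      rcases List.mem_cons.1 hH with rfl | hH
      · exact (hle (max i j) ((max_lt hi hj).trans hcl) i (le_max_left _ _)).1 h1
      · exact (hle (max i j) ((max_lt hi hj).trans hcl) j (le_max_right _ _)).1 (h2 H hH)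
  refine ⟨⟨N, ?_, ?_, r, ?_, ?_, ?_, ?_, ?_, ?_, ?_⟩⟩
  · refine (Cardinal.mk_iUnion_le _).trans ?_
    calc #(Set.Iio (om c)) * ⨆ i : Set.Iio (om c), #((s i).N) ≤ al l * al l :=
          mul_le_mul' (mk_Iio_le_of_lt hcl) (ciSup_le' fun i => (s i).card)
      _ = al l := Cardinal.mul_eq_self (aleph0_le_al l)
  · intro H hH
    obtain ⟨i, _, h⟩ := hmem.1 hH
    exact (s i).fs H h
  · intro x m H hH hrel
    obtain ⟨i, hi, h⟩ := hmem.1 hH
    obtain ⟨g, hg, h1, h2, h3⟩ := (hnext (s i)).dcd x m H h hrel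
    refine ⟨g, hmem.2 ⟨i + 1, hsucc i hi, hstep i hi hg⟩, h1, h2, ?_⟩
    have h4 : r x ≤ (next (s i)).r x := (hr x ⟨i + 1, hsucc i hi⟩).trans
      ((hs (i + 1) ((hsucc i hi).trans hcl) i (lt_add_one i)).2 x)
    exact (SS T X x).mono h4 h3
  · intro j L hL
    obtain ⟨i, hi, h⟩ := hdir L hL
    exact hmem.2 ⟨i + 1, hsucc i hi, hstep i hi ((hnext (s i)).alg j L h)⟩
  · intro m H hH
    obtain ⟨i, hi, h⟩ := hmem.1 hH
    exact hmem.2 ⟨i + 1, hsucc i hi, hstep i hi ((hnext (s i)).cut m H h)⟩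
  · intro m H hH
    obtain ⟨i, hi, h⟩ := hmem.1 hH
    exact hmem.2 ⟨i + 1, hsucc i hi, hstep i hi ((hnext (s i)).supl m H h)⟩
  · exact hmem.2 ⟨0, Ordinal.omega_pos _, (hs0 0 (Ordinal.omega_pos _)).1 h0p⟩
  · exact fun n hn i => hmem.2 ⟨0, Ordinal.omega_pos _, (hs0 0 (Ordinal.omega_pos _)).1 (h0c n hn i)⟩
  · intro m hm
    let b : Set.Iio (om c) → Ordinal.{0} := fun i => bet m (s i).N
    have hb : ∀ i, b i < om m := fun i => bet_lt hm (s i).card
    have hbm : ∀ i : Set.Iio (om c), ∀ j < om (l + 1), i.1 < j →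
        cst (mkV m (b i)) ∈ (s j).N := by
      intro i j hj hij
      exact (hs j hj i hij).1 ((hnext (s i)).bet m)
    have hmk : ∀ i, (mkV m (b i)).1 = b i := by
      intro i
      unfold mkV
      rw [dif_pos (hb i)]
    have hmono : StrictMono b := by
      intro i j hij
      have h1 := hbm i j (j.2.trans hcl) hij
      have := lt_bet (m := m) h1 (by rw [hmk]; exact hb i)
      rwa [hmk] at this
    have hsup : sSup {o | ∃ v : VV, (cst v : Fn l f) ∈ N ∧ v.1 < om m ∧ v.1 = o} = ⨆ i, b i := by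
      have hbdd : BddAbove (range b) := ⟨om m, by rintro _ ⟨i, rfl⟩; exact (hb i).le⟩
      have hpos : (0 : Ordinal.{0}) < om c := Ordinal.omega_pos _
      apply le_antisymm
      · apply csSup_le
        · refine ⟨b ⟨0, hpos⟩, mkV m (b ⟨0, hpos⟩), hmem.2 ⟨0 + 1, hsucc 0 hpos,
            hbm ⟨0, hpos⟩ (0 + 1) ((hsucc 0 hpos).trans hcl) (lt_add_one _)⟩, ?_, hmk _⟩
          rw [hmk]
          exact hb _
        · rintro _ ⟨v, hv, hvm, rfl⟩
          obtain ⟨i, hi, h⟩ := hmem.1 hv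
          exact (lt_bet h hvm).le.trans (le_ciSup hbdd ⟨i, hi⟩)
      · have : Nonempty (Set.Iio (om c)) := ⟨⟨0, hpos⟩⟩
        apply ciSup_le
        intro i
        apply le_csSup
        · refine ⟨om m, ?_⟩
          rintro _ ⟨v, _, h, rfl⟩
          exact h.le
        · refine ⟨mkV m (b i), hmem.2 ⟨i + 1, hsucc i i.2, hbm i (i + 1) ((hsucc i i.2).trans hcl)
            (lt_add_one _)⟩, ?_, hmk _⟩
          rw [hmk]
          exact hb i
    rw [hsup]
    constructor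
    · apply Ordinal.lift_iSup_lt_of_lt_cof (f := b) _ hb
      rw [cof_lift_om, Cardinal.lift_uzero]
      exact (mk_Iio_le_of_lt hcl).trans_lt (al_lt (by omega))
    · rw [Ordinal.cof_iSup_Iio hmono (isLimit_om c).isSuccPrelimit, cof_om]

end Pool.Agent.Lib_helper73.MS
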