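import Pool.Agent.Lib_helper73.MS.Core

/-!
# Mutual stationarity: the combinatorial form of the theorem
-/

namespace Pool.Agent.Lib_helper73.MS

open Cardinal Ordinal Set Filter

variable {l : ℕ} {f : ℕ → ℕ} {T : ∀ n, Sys l (En f n)} {X : Set ℕ} {c : ℕ} {J : Type}
  {F : J → List VV → VV}

/-- the set -/
def NN (L : Lim T X c F) (e : Pt f) (δ : Ordinal.{0}) : Set VV :=
  {v | ∃ H ∈ L.N, Inv H ∧ ∃ p : K (l + 1), p.1 < δ ∧ H p e = v}

/-- the part of a set of ordinals below `ω_m` -/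
def tr (N : Set VV) (m : ℕ) : Set Ordinal.{0} := {o | ∃ v ∈ N, v.1 < om m ∧ v.1 = o}

theorem NN_closed (L : Lim T X c F) (e : Pt f) {δ : Ordinal.{0}}
    (hδ : ∀ ps : List (K (l + 1)), (∀ p ∈ ps, p.1 < δ) → (enc l ps).1 < δ)
    (j : J) (vs : List VV) (hvs : ∀ v ∈ vs, v ∈ NN L e δ) : F j vs ∈ NN L e δ := by
  have key : ∀ vs : List VV, (∀ v ∈ vs, v ∈ NN L e δ) → ∃ Hs : List (Fn l f),
      ∃ ps : List (K (l + 1)), (∀ H ∈ Hs, H ∈ L.N) ∧ (∀ H ∈ Hs, Inv H) ∧ (∀ p ∈ ps, p.1 < δ) ∧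
        ev Hs ps e = vs := by
    intro vs
    induction vs with
    | nil => exact fun _ => ⟨[], [], by simp, by simp, by simp, rfl⟩
    | cons v vs ih =>
      intro h
      obtain ⟨Hs, ps, h1, h2, h3, h4⟩ := ih fun v hv => h v (by simp [hv])
      obtain ⟨H, hH, hinv, p, hp, hv⟩ := h v (by simp)
      refine ⟨H :: Hs, p :: ps, ?_, ?_, ?_, ?_⟩
      · intro H' hH'
        rcases List.mem_cons.1 hH' with rfl | h'
        · exact hH
        · exact h1 _ h'
      · intro H' hH'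
        rcases List.mem_cons.1 hH' with rfl | h'
        · exact hinv
        · exact h2 _ h'
      · intro p' hp'
        rcases List.mem_cons.1 hp' with rfl | h'
        · exact hp
        · exact h3 _ h'
      · simp only [ev, List.headD_cons, List.tail_cons, h4, hv]
  obtain ⟨Hs, ps, h1, h2, h3, h4⟩ := key vs hvs
  refine ⟨app (F j) Hs, L.alg j Hs h1, Inv.app _ h2, enc l ps, hδ ps h3, ?_⟩
  unfold app
  rw [Equiv.symm_apply_apply, h4]

/-- the ordinal `δ` -/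
theorem exists_delta (L : Lim T X c F) (e : Pt f) {d : ℕ} (hd : d ≤ l) :
    ∃ δ < om (l + 1), δ.cof = ℵ_ (d : Ordinal.{0}) ∧ Order.IsSuccLimit δ ∧
      (∀ ps : List (K (l + 1)), (∀ p ∈ ps, p.1 < δ) → (enc l ps).1 < δ) ∧
      (∀ H ∈ L.N, ∀ p : K (l + 1), p.1 < δ → (H p e).1 < om (l + 1) → (H p e).1 < δ) := by
  classical
  have hb : ℵ₀ ≤ al l := aleph0_le_al l
  -- the bound
  have hbound : ∀ α : K (l + 1), ∃ β : K (l + 1), α < β ∧
      (∀ ps : List (K (l + 1)), (∀ p ∈ ps, p ≤ α) → enc l ps ≤ β) ∧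
      (∀ H ∈ L.N, ∀ p ≤ α, (H p e).1 < om (l + 1) → (H p e).1 ≤ β.1) := by
    intro α
    have hIc : #(Set.Iic α) ≤ al l := by
      have h1 : #(Set.Iic α) ≤ #(Set.Iio (α.1 + 1)) := by
        refine Cardinal.mk_le_of_injective (f := fun p : Set.Iic α =>
          (⟨p.1.1, lt_of_le_of_lt (show p.1.1 ≤ α.1 from p.2) (lt_add_one _)⟩ :
            Set.Iio (α.1 + 1))) ?_
        intro p p' h
        have h1 : p.1.1 = p'.1.1 := congrArg (fun v : Set.Iio (α.1 + 1) => v.1) h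
        exact Subtype.ext (Subtype.ext h1)
      exact h1.trans (mk_Iio_le_of_lt (add_one_lt_om α.2))
    let s1 : Set Ordinal.{0} := range fun ps : List (Set.Iic α) => (enc l (ps.map Subtype.val)).1
    let s2 : Set Ordinal.{0} := range fun q : L.N × Set.Iic α =>
      if (q.1.1 q.2.1 e).1 < om (l + 1) then (q.1.1 q.2.1 e).1 else 0
    have c1 : #s1 ≤ al l :=
      Cardinal.mk_range_le.trans ((Cardinal.mk_list_le_max _).trans (max_le hb hIc))
    have c2 : #s2 ≤ al l := by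
      refine Cardinal.mk_range_le.trans ?_
      rw [Cardinal.mk_prod]
      simp only [Cardinal.lift_id]
      calc #L.N * #(Set.Iic α) ≤ al l * al l := mul_le_mul' L.card hIc
        _ = al l := Cardinal.mul_eq_self hb
    have hs1 : ∀ o ∈ s1, o < om (l + 1) := by
      rintro _ ⟨ps, rfl⟩
      exact (enc l _).2
    have hs2 : ∀ o ∈ s2, o < om (l + 1) := by
      rintro _ ⟨q, rfl⟩
      simp only
      split_ifs with h
      · exact h
      · exact Ordinal.omega_pos _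
    have hc : al l < (Ordinal.lift.{1} (om (l + 1))).cof := by
      rw [cof_lift_om]
      exact al_lt (by omega)
    have b1 : sSup s1 < om (l + 1) := Ordinal.sSup_lt_of_lt_cof (c1.trans_lt hc) hs1
    have b2 : sSup s2 < om (l + 1) := Ordinal.sSup_lt_of_lt_cof (c2.trans_lt hc) hs2
    have bd1 : BddAbove s1 := ⟨om (l + 1), fun o ho => (hs1 o ho).le⟩
    have bd2 : BddAbove s2 := ⟨om (l + 1), fun o ho => (hs2 o ho).le⟩
    refine ⟨⟨max (α.1 + 1) (max (sSup s1) (sSup s2)), max_lt (add_one_lt_om α.2) (max_lt b1 b2)⟩,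
      ?_, ?_, ?_⟩
    · exact Subtype.mk_lt_mk.2 ((lt_add_one _).trans_le (le_max_left _ _))
    · intro ps hps
      refine Subtype.mk_le_mk.2 ?_
      refine le_trans ?_ ((le_max_left _ _).trans (le_max_right _ _))
      refine le_csSup bd1 ⟨ps.attach.map fun p => ⟨p.1, hps p.1 p.2⟩, ?_⟩
      have : (ps.attach.map fun p => (⟨p.1, hps p.1 p.2⟩ : Set.Iic α)).map Subtype.val = ps := by
        rw [List.map_map]
        exact List.attach_map_subtype_val ps
      simp only [this]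
      rfl
    · intro H hH p hp hv
      refine le_trans ?_ ((le_max_right _ _).trans (le_max_right _ _))
      refine le_csSup bd2 ⟨⟨⟨H, hH⟩, ⟨p, hp⟩⟩, ?_⟩
      simp only [hv, if_true]
  choose G hG1 hG2 hG3 using hbound
  have hclosed : SeqClosed (K (l + 1))ᵒᵈ (om (l + 1)) := by
    intro o ho s hs
    have hlt : (⨆ i : Set.Iio o, (OrderDual.ofDual (s i)).1) < om (l + 1) := by
      apply Ordinal.lift_iSup_lt_of_lt_cof
      · rw [cof_lift_om, Cardinal.lift_uzero]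
        exact (mk_Iio_le_of_lt ho).trans_lt (al_lt (by omega))
      · exact fun i => (OrderDual.ofDual (s i)).2
    refine ⟨OrderDual.toDual ⟨_, hlt⟩, fun i => ?_⟩
    change (OrderDual.ofDual (s i)) ≤ (⟨_, hlt⟩ : K (l + 1))
    refine Subtype.mk_le_mk.2 (le_ciSup (f := fun i : Set.Iio o => (OrderDual.ofDual (s i)).1)
      ⟨om (l + 1), ?_⟩ i)
    rintro _ ⟨j, rfl⟩
    exact (OrderDual.ofDual (s j)).2.le
  obtain ⟨s, _, hs⟩ := exists_seq hclosed (fun _ a => OrderDual.toDual (G (OrderDual.ofDual a)))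
    (fun _ a => (hG1 (OrderDual.ofDual a)).le) (OrderDual.toDual (Classical.arbitrary (K (l + 1))))
  have hdl : om d < om (l + 1) := om_lt (by omega)
  let b : Set.Iio (om d) → Ordinal.{0} := fun i => (OrderDual.ofDual (s i.1)).1
  have hb2 : ∀ i, b i < om (l + 1) := fun i => (OrderDual.ofDual (s i.1)).2
  have hGs : ∀ i j : Set.Iio (om d), i < j → (G (OrderDual.ofDual (s i.1))).1 ≤ b j := by
    intro i j hij
    exact hs j.1 (j.2.trans hdl) i.1 hij
  have hmono : StrictMono b := by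
    intro i j hij
    exact lt_of_lt_of_le (hG1 (OrderDual.ofDual (s i.1))) (hGs i j hij)
  have hlim := isLimit_om d
  have hpos : (0 : Ordinal.{0}) < om d := Ordinal.omega_pos _
  have hne : Nonempty (Set.Iio (om d)) := ⟨⟨0, hpos⟩⟩
  have hbdd : BddAbove (range b) := ⟨om (l + 1), by rintro _ ⟨i, rfl⟩; exact (hb2 i).le⟩
  have hlt : (⨆ i, b i) < om (l + 1) := by
    apply Ordinal.lift_iSup_lt_of_lt_cof (f := b) _ hb2
    rw [cof_lift_om, Cardinal.lift_uzero]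
    exact (mk_Iio_le_of_lt hdl).trans_lt (al_lt (by omega))
  have hsucc : ∀ i : Set.Iio (om d), ∃ j : Set.Iio (om d), i < j := fun i =>
    ⟨⟨i.1 + 1, hlim.add_one_lt i.2⟩, Subtype.mk_lt_mk.2 (lt_add_one _)⟩
  have hlts : ∀ i : Set.Iio (om d), b i < ⨆ i, b i := by
    intro i
    obtain ⟨j, hj⟩ := hsucc i
    exact (hmono hj).trans_le (le_ciSup hbdd j)
  have hcof : (⨆ i, b i).cof = ℵ_ (d : Ordinal.{0}) := by
    rw [Ordinal.cof_iSup_Iio hmono hlim.isSuccPrelimit, cof_om]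
  have hex : ∀ o < ⨆ i, b i, ∃ i, o < b i := fun o ho => exists_lt_of_lt_ciSup ho
  refine ⟨⨆ i, b i, hlt, hcof, ?_, ?_, ?_⟩
  · rw [← Ordinal.one_lt_cof_iff, hcof]
    exact Cardinal.one_lt_aleph0.trans_le (Cardinal.aleph0_le_aleph _)
  · intro ps hps
    have : ∃ i, ∀ p ∈ ps, p.1 < b i := by
      induction ps with
      | nil => exact ⟨⟨0, hpos⟩, by simp⟩
      | cons p ps ih =>
        obtain ⟨i, hi⟩ := ih fun p hp => hps p (by simp [hp])
        obtain ⟨j, hj⟩ := hex p.1 (hps p (by simp))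
        refine ⟨max i j, fun p' hp' => ?_⟩
        rcases List.mem_cons.1 hp' with rfl | h
        · exact hj.trans_le (hmono.monotone (le_max_right _ _))
        · exact (hi p' h).trans_le (hmono.monotone (le_max_left _ _))
    obtain ⟨i, hi⟩ := this
    obtain ⟨j, hj⟩ := hsucc i
    have h1 := hG2 (OrderDual.ofDual (s i.1)) ps fun p hp => (Subtype.mk_le_mk.2 (hi p hp).le)
    exact (lt_of_le_of_lt (Subtype.mk_le_mk.1 h1 |>.trans (hGs i j hj)) (hlts j))
  · intro H hH p hp hv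
    obtain ⟨i, hi⟩ := hex p.1 hp
    obtain ⟨j, hj⟩ := hsucc i
    have h1 := hG3 (OrderDual.ofDual (s i.1)) H hH p (Subtype.mk_le_mk.2 hi.le) hv
    exact (h1.trans (hGs i j hj)).trans_lt (hlts j)

theorem cen_strictMono (hX : X.Infinite) (hXl : ∀ x ∈ X, l + 2 ≤ x) {L : Lim T X c F}
    {y : ℕ → Pt f} (hy : ∀ x, l + 1 ≤ x → Good L x (y x)) {m : ℕ} (hml : l + 2 ≤ m)
    (hm : m ∉ X) : StrictMono (fun i : K (f m) => (cen l X y m i).1) := by
  intro j i hji
  obtain ⟨hb1, hb2, hb3⟩ := bk_spec (l := l) hX hml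
  set x := bk l X m with hxdef
  have hxl : l + 1 ≤ x := by
    rcases hb1 with h | h
    · have := hXl x h
      omega
    · omega
  obtain ⟨hn1, hn2⟩ := nx_spec hX x
  have hmn : m < nx X x := lt_of_le_of_ne hb3 fun h => hm (h ▸ hn1)
  have h6 := (hy x hxl).big m hb2 hmn i (crd m j) (L.crd m ⟨hml, hm⟩ j)
    (fun p e => (e m j).2) (fun p p' e e' _ h => by simp only [crd, h j hji])
    (Classical.arbitrary _)
  have h7 : (cen l X y) m = y x m := by
    unfold cen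
    rw [← hxdef]
  simp only [h7]
  exact h6

theorem tr_NN_low (L : Lim T X c F) (e : Pt f) {δ : Ordinal.{0}} (hδ : δ < om (l + 1))
    (hcl : ∀ H ∈ L.N, ∀ p : K (l + 1), p.1 < δ → (H p e).1 < om (l + 1) → (H p e).1 < δ) :
    tr (NN L e δ) (l + 1) = Set.Iio δ := by
  ext o
  constructor
  · rintro ⟨v, ⟨H, hH, _, p, hp, rfl⟩, hv, rfl⟩
    exact hcl H hH p hp hv
  · intro ho
    have ho' : o < om (l + 1) := lt_trans ho hδ
    exact ⟨⟨o, ho'.trans (om_lt_omw _)⟩, ⟨par, L.par, Inv.par, ⟨o, ho'⟩, ho, rfl⟩, ho', rfl⟩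

theorem sSup_tr_X (hG : GCHfrom l) (hf : ∀ n, f n ≤ l) (hX : X.Infinite)
    (hXl : ∀ x ∈ X, l + 2 ≤ x) {L : Lim T X c F} {y : ℕ → Pt f}
    (hy : ∀ x, l + 1 ≤ x → Good L x (y x)) {m : ℕ} (hm : m ∈ X) {δ : Ordinal.{0}}
    (hδ0 : 0 < δ) :
    sSup (tr (NN L (cen l X y) δ) m) = sSup {o | ∃ v : VV, cst v ∈ L.N ∧ v.1 < om m ∧ v.1 = o} := by
  have hsub : {o | ∃ v : VV, (cst v : Fn l f) ∈ L.N ∧ v.1 < om m ∧ v.1 = o} ⊆
      tr (NN L (cen l X y) δ) m := by
    rintro o ⟨v, hv, hvm, rfl⟩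
    exact ⟨v, ⟨cst v, hv, Inv.cst v, ⟨0, Ordinal.omega_pos _⟩, hδ0, rfl⟩, hvm, rfl⟩
  have hbd : BddAbove (tr (NN L (cen l X y) δ) m) := by
    refine ⟨om m, ?_⟩
    rintro _ ⟨v, _, h, rfl⟩
    exact h.le
  have hbd' : BddAbove {o | ∃ v : VV, (cst v : Fn l f) ∈ L.N ∧ v.1 < om m ∧ v.1 = o} :=
    hbd.mono hsub
  apply le_antisymm
  · apply csSup_le'
    rintro _ ⟨v, ⟨H, hH, hinv, p, hp, rfl⟩, hv, rfl⟩
    obtain ⟨w, hw1, hw2, hw3⟩ := bound_X hG hf hX hXl hy hm hH hinv hv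
    exact hw3.trans (le_csSup hbd' ⟨w, hw1, hw2, rfl⟩)
  · apply csSup_le'
    intro o ho
    exact le_csSup hbd (hsub ho)

theorem sSup_tr_Y (hG : GCHfrom l) (hf : ∀ n, f n ≤ l) (hX : X.Infinite)
    (hXl : ∀ x ∈ X, l + 2 ≤ x) {L : Lim T X c F} {y : ℕ → Pt f}
    (hy : ∀ x, l + 1 ≤ x → Good L x (y x)) {m : ℕ} (hml : l + 2 ≤ m) (hm : m ∉ X)
    {δ : Ordinal.{0}} (hδ0 : 0 < δ) :
    sSup (tr (NN L (cen l X y) δ) m) = ⨆ i : K (f m), (cen l X y m i).1 := by
  have hbd : BddAbove (tr (NN L (cen l X y) δ) m) := by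
    refine ⟨om m, ?_⟩
    rintro _ ⟨v, _, h, rfl⟩
    exact h.le
  have hbd' : BddAbove (range fun i : K (f m) => (cen l X y m i).1) := by
    refine ⟨om m, ?_⟩
    rintro _ ⟨i, rfl⟩
    exact (cen l X y m i).2.le
  apply le_antisymm
  · apply csSup_le'
    rintro _ ⟨v, ⟨H, hH, ⟨θ, hθ⟩, p, hp, rfl⟩, hv, rfl⟩
    obtain ⟨i, hi⟩ := bound_Y hG hf hX hXl hy hml hm hH hv hθ
    exact hi.le.trans (le_ciSup hbd' i)
  · apply ciSup_le
    intro i
    exact le_csSup hbd ⟨⟨(cen l X y m i).1, (cen l X y m i).2.trans (om_lt_omw _)⟩,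
      ⟨crd m i, L.crd m ⟨hml, hm⟩ i, Inv.crd m i, ⟨0, Ordinal.omega_pos _⟩, hδ0, rfl⟩,
      (cen l X y m i).2, rfl⟩

/-- The theorem in combinatorial form. -/
theorem main (hG : GCHfrom l) (hf : ∀ n, f n ≤ l) (hC : ∀ n, l + 2 ≤ n → GenCompact l n)
    {J : Type} [Countable J] (F : J → List VV → VV) :
    ∃ N : Set VV, (∀ j, ∀ L : List VV, (∀ v ∈ L, v ∈ N) → F j L ∈ N) ∧
      ∀ m, l + 1 ≤ m → sSup (tr N m) < om m ∧ (sSup (tr N m)).cof = ℵ_ (f m : Ordinal.{0}) := by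
  classical
  -- the systems
  have hT : ∀ n, ∃ T : Sys l (En f n), l + 2 ≤ n → T.Dec (al (n - 1)) ∧ Big n T := by
    intro n
    by_cases h : l + 2 ≤ n
    · obtain ⟨T, hT⟩ := exists_sys hG hf h (hC n h)
      exact ⟨T, fun _ => hT⟩
    · exact ⟨Sys.triv l (pt f n), fun h' => absurd h' h⟩
  choose T hT using hT
  -- the value which is taken infinitely often
  have hpig : ∃ c ≤ l, {n | l + 2 ≤ n ∧ f n = c}.Infinite := by
    by_contra hcon
    push Not at hcon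
    have hfin : (⋃ c : Set.Iic l, {n | l + 2 ≤ n ∧ f n = c.1}).Finite :=
      Set.finite_iUnion fun c => hcon c.1 c.2
    have hsub : {n | l + 2 ≤ n} ⊆ ⋃ c : Set.Iic l, {n | l + 2 ≤ n ∧ f n = c.1} := by
      intro n hn
      exact mem_iUnion.2 ⟨⟨f n, hf n⟩, hn, rfl⟩
    exact (Set.infinite_of_injective_forall_mem (f := fun k : ℕ => l + 2 + k)
      (fun a b h => by simpa using h) (fun k => by simp)) (hfin.subset hsub)
  obtain ⟨c, hc, hX⟩ := hpig
  set X : Set ℕ := {n | l + 2 ≤ n ∧ f n = c} with hXdef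
  have hXl : ∀ x ∈ X, l + 2 ≤ x := fun x hx => hx.1
  obtain ⟨L⟩ := exists_lim (T := T) (X := X) hG hf (fun n hn => (hT n hn).1) hXl hc F
  have hex : ∀ x, ∃ y, l + 1 ≤ x → Good L x y := by
    intro x
    by_cases h : l + 1 ≤ x
    · obtain ⟨y, hy⟩ := exists_good hf (fun n hn => (hT n hn).2) L h
      exact ⟨y, fun _ => hy⟩
    · exact ⟨pt f, fun h' => absurd h' h⟩
  choose y hy using hex
  obtain ⟨δ, hδ, hcof, hlim, henc, hval⟩ := exists_delta L (cen l X y) (hf (l + 1))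
  have hδ0 : 0 < δ := by
    rw [pos_iff_ne_zero]
    rintro rfl
    simp at hlim
  refine ⟨NN L (cen l X y) δ, fun j vs hvs => NN_closed L _ henc j vs hvs, fun m hm => ?_⟩
  rcases eq_or_lt_of_le hm with rfl | hm
  · rw [tr_NN_low L _ hδ hval]
    have : sSup (Set.Iio δ) = δ := by
      apply le_antisymm
      · exact csSup_le' fun o ho => le_of_lt ho
      · by_contra hcon
        push Not at hcon
        have h1 : sSup (Set.Iio δ) + 1 < δ := hlim.add_one_lt hcon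
        have h2 : sSup (Set.Iio δ) + 1 ≤ sSup (Set.Iio δ) := le_csSup ⟨δ, fun o ho => le_of_lt ho⟩ h1
        exact absurd h2 (not_le.2 (lt_add_one _))
    rw [this]
    exact ⟨hδ, hcof⟩
  · by_cases hmX : m ∈ X
    · rw [sSup_tr_X hG hf hX hXl hy hmX hδ0, hmX.2]
      exact L.cof m (by omega)
    · rw [sSup_tr_Y hG hf hX hXl hy hm hmX hδ0]
      have hsm := cen_strictMono hX hXl hy hm hmX
      constructor
      · apply Ordinal.lift_iSup_lt_of_lt_cof _ (fun i => (cen l X y m i).2)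
        rw [cof_lift_om, Cardinal.lift_uzero, mk_K]
        exact al_lt (by have := hf m; omega)
      · rw [Ordinal.cof_iSup_Iio hsm (isLimit_om _).isSuccPrelimit, cof_om]

end Pool.Agent.Lib_helper73.MS
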