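import Pool.Agent.Lib_helper73.MS.Fn

/-!
# Mutual stationarity: the recursion
-/

namespace Pool.Agent.Lib_helper73.MS

open Cardinal Ordinal Set Filter

/-- the next element of `X` above `x` -/
noncomputable def nx (X : Set ℕ) (x : ℕ) : ℕ := sInf {y | y ∈ X ∧ x < y}

theorem nx_spec {X : Set ℕ} (hX : X.Infinite) (x : ℕ) : nx X x ∈ X ∧ x < nx X x :=
  Nat.sInf_mem (s := {y | y ∈ X ∧ x < y}) (by
    obtain ⟨y, hy, hxy⟩ := hX.exists_gt x
    exact ⟨y, hy, hxy⟩)

theorem nx_le {X : Set ℕ} {x y : ℕ} (hy : y ∈ X) (hxy : x < y) : nx X x ≤ y :=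
  Nat.sInf_le ⟨hy, hxy⟩

variable {l : ℕ} {f : ℕ → ℕ}

/-- the coordinates between `x` and the next element of `X` from `y`, the others from `e` -/
noncomputable def asg (X : Set ℕ) (x : ℕ) (y e : Pt f) : Pt f := fun n =>
  open Classical in if x < n ∧ n < nx X x then y n else e n

/-- the coordinates used -/
def YY (l : ℕ) (X : Set ℕ) : Set ℕ := {n | l + 2 ≤ n ∧ n ∉ X}

/-- the system for the block above `x` -/
noncomputable def SS (T : ∀ n, Sys l (En f n)) (X : Set ℕ) (x : ℕ) : Sys l (Pt f) :=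
  Blk T (x + 1) (nx X x - (x + 1))

/-- small functions of the coordinates below `x` -/
def GX (l : ℕ) (f : ℕ → ℕ) (X : Set ℕ) (x m : ℕ) : Type 1 :=
  {g : Fn l f // Supp (YY l X) g x ∧ ∀ p e, (g p e).1 < om m}

theorem mk_GX_le (hG : GCHfrom l) (hf : ∀ n, f n ≤ l) (X : Set ℕ) {x m : ℕ} (hx : l + 2 ≤ x)
    (hm : m ≤ x) : #(GX l f X x m) ≤ al x := by
  classical
  have h1 : #(GX l f X x m) ≤ #(K (l + 1) × (∀ n : Fin x, En f n) → K m) := by
    refine Cardinal.mk_le_of_injective (f := fun g q => ⟨(g.1 q.1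
      (fun n => if h : n < x then q.2 ⟨n, h⟩ else pt f n)).1, g.2.2 _ _⟩) ?_
    intro g g' h
    refine Subtype.ext ?_
    funext p e
    have h2 := congrFun h ⟨p, fun n => e n⟩
    simp only [Subtype.mk.injEq] at h2
    have h3 : ∀ g : GX l f X x m, g.1 p (fun n => if h : n < x then e n else pt f n) =
        g.1 p e := fun g => g.2.1 _ _ _ fun n _ hn => by simp [hn]
    have h4 := Subtype.ext h2
    have h5 : g.1 p (fun n => if h : n < x then e n else pt f n) =
      g'.1 p (fun n => if h : n < x then e n else pt f n) := h4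
    rwa [h3, h3] at h5
  refine h1.trans ?_
  rw [← Cardinal.power_def, mk_K]
  calc al m ^ #(K (l + 1) × (∀ n : Fin x, En f n)) ≤ al x ^ al (x - 1) := by
        refine (Cardinal.power_le_power_right (al_mono hm)).trans
          (Cardinal.power_le_power_left (Cardinal.aleph_pos _).ne' (mk_fin_le hG hf hx))
    _ = al x := pow_al hG (by omega) (by omega)

/-- the decision for the function `H` at the block above `x` -/
def Dcd (T : ∀ n, Sys l (En f n)) (X : Set ℕ) (x m : ℕ) (H : Fn l f) (r : (SS T X x).R) : Prop :=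
  ∃ g : Fn l f, Supp (YY l X) g x ∧ (∀ p e, (g p e).1 < om m) ∧
    ∀ᶠ y in (SS T X x).U r, ∀ p e, H p (asg X x y e) = g p e

/-- the hypothesis of the decisions -/
def Rel (l : ℕ) (f : ℕ → ℕ) (X : Set ℕ) (x m : ℕ) (H : Fn l f) : Prop :=
  x ∈ X ∧ m ≤ x ∧ Supp (YY l X) H (nx X x) ∧ ∀ p e, (H p e).1 < om m

theorem exists_dcd (hG : GCHfrom l) (hf : ∀ n, f n ≤ l) {T : ∀ n, Sys l (En f n)} {X : Set ℕ}
    (hT : ∀ n, l + 2 ≤ n → (T n).Dec (al (n - 1))) (hXl : ∀ x ∈ X, l + 2 ≤ x)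
    {x m : ℕ} {H : Fn l f} (hH : Rel l f X x m H) (r : (SS T X x).R) :
    ∃ r' ≤ r, Dcd T X x m H r' := by
  obtain ⟨hx, hm, hs, hv⟩ := hH
  have hxl := hXl x hx
  have hdec : (SS T X x).Dec (al x) := by
    refine Blk_dec T (al x) _ _ fun n h1 h2 => ?_
    exact (hT n (by omega)).mono (al_mono (by omega))
  have hsupp : ∀ y, Supp (YY l X) (fun p e => H p (asg X x y e)) x := by
    intro y p e e' he
    refine hs _ _ _ fun n hn hnx => ?_
    unfold asg
    by_cases h : x < n ∧ n < nx X x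
    · simp [h]
    · simp only [h, if_false]
      rcases lt_trichotomy n x with h3 | h3 | h3
      · exact he n hn h3
      · subst h3
        exact absurd hx hn.2
      · exact absurd ⟨h3, hnx⟩ h
  obtain ⟨r', hr', z, hz⟩ := hdec r (GX l f X x m) (mk_GX_le hG hf X hxl hm)
    (fun y => ⟨fun p e => H p (asg X x y e), hsupp y, fun p e => hv _ _⟩)
  refine ⟨r', hr', z.1, z.2.1, z.2.2, ?_⟩
  filter_upwards [hz] with y hy p e
  have := congrArg Subtype.val hy
  exact congrFun (congrFun this p) e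

/-- The states of the recursion. -/
structure St (T : ∀ n, Sys l (En f n)) (X : Set ℕ) where
  N : Set (Fn l f)
  card : #N ≤ al l
  fs : ∀ H ∈ N, ∃ k, Supp (YY l X) H k
  r : ∀ x, (SS T X x).R

variable {T : ∀ n, Sys l (En f n)} {X : Set ℕ}

instance : Preorder (St T X) where
  le s' s := s.N ⊆ s'.N ∧ ∀ x, s'.r x ≤ s.r x
  le_refl s := ⟨subset_rfl, fun _ => le_rfl⟩
  le_trans a b c h1 h2 := ⟨h2.1.trans h1.1, fun x => (h1.2 x).trans (h2.2 x)⟩

theorem mk_Iio_le_of_lt {o : Ordinal.{0}} (ho : o < om (l + 1)) : #(Set.Iio o) ≤ al l := by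
  rw [Cardinal.mk_Iio_ordinal]
  have h2 : o.card < ℵ_ ((l + 1 : ℕ) : Ordinal.{0}) := by
    rw [← Cardinal.lt_ord, Cardinal.ord_aleph]
    exact ho
  have h3 : o.card ≤ ℵ_ (l : Ordinal.{0}) := by
    rw [← Order.lt_succ_iff, Cardinal.succ_aleph]
    simpa using h2
  have h4 := Cardinal.lift_le.{1}.2 h3
  simpa [al] using h4

theorem St.seqClosed : SeqClosed (St T X) (om (l + 1)) := by
  intro o ho s hs
  have hI := mk_Iio_le_of_lt ho
  choose r hr using fun x => (SS T X x).cl o ho (fun i => (s i).r x) (fun i j h => (hs h).2 x)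
  refine ⟨⟨⋃ i, (s i).N, ?_, ?_, r⟩, fun i => ⟨subset_iUnion (fun i => (s i).N) i,
    fun x => hr x i⟩⟩
  · refine (Cardinal.mk_iUnion_le _).trans ?_
    calc #(Set.Iio o) * ⨆ i, #((s i).N) ≤ al l * al l :=
          mul_le_mul' hI (ciSup_le' fun i => (s i).card)
      _ = al l := Cardinal.mul_eq_self (aleph0_le_al l)
  · intro H hH
    obtain ⟨i, hi⟩ := mem_iUnion.1 hH
    exact (s i).fs H hi

instance (n : ℕ) : Infinite (K n) := by
  rw [Cardinal.infinite_iff, mk_K]
  exact aleph0_le_al n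

/-- coding of finite sequences of parameters by parameters -/
noncomputable def enc (l : ℕ) : List (K (l + 1)) ≃ K (l + 1) :=
  Classical.choice (Cardinal.eq.1 (Cardinal.mk_list_eq_mk (K (l + 1))))

/-- evaluation of a list of functions at a list of parameters and a point -/
noncomputable def ev : List (Fn l f) → List (K (l + 1)) → Pt f → List VV
  | [], _, _ => []
  | H :: L, ps, e => H (ps.headD (Classical.arbitrary _)) e :: ev L ps.tail e

/-- application of an operation to a list of functions -/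
noncomputable def app (F : List VV → VV) (L : List (Fn l f)) : Fn l f := fun p e =>
  F (ev L ((enc l).symm p) e)

theorem ev_congr {L : List (Fn l f)} {e e' : Pt f} (h : ∀ H ∈ L, ∀ p, H p e = H p e') :
    ∀ ps, ev L ps e = ev L ps e' := by
  induction L with
  | nil => exact fun _ => rfl
  | cons a L ih =>
    intro ps
    simp only [ev, h a (by simp)]
    rw [ih fun H hH => h H (by simp [hH])]

theorem Supp.app {Y : Set ℕ} (F : List VV → VV) {L : List (Fn l f)}
    (h : ∀ H ∈ L, ∃ k, Supp Y H k) : ∃ k, Supp Y (app F L) k := by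
  have : ∃ k, ∀ H ∈ L, Supp Y H k := by
    induction L with
    | nil => exact ⟨0, by simp⟩
    | cons a L ih =>
      obtain ⟨k1, h1⟩ := h a (by simp)
      obtain ⟨k2, h2⟩ := ih fun H hH => h H (by simp [hH])
      refine ⟨max k1 k2, fun H hH => ?_⟩
      rcases List.mem_cons.1 hH with rfl | hH
      · exact h1.mono (le_max_left _ _)
      · exact (h2 H hH).mono (le_max_right _ _)
  obtain ⟨k, hk⟩ := this
  refine ⟨k, fun p e e' he => ?_⟩
  unfold MS.app
  rw [ev_congr fun H hH p => hk H hH p e e' he]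

theorem Inv.app (F : List VV → VV) {L : List (Fn l f)} (h : ∀ H ∈ L, Inv H) : Inv (app F L) := by
  have : ∃ θ : ∀ n, K (f n), ∀ H ∈ L, ∀ p e e', (∀ n, ∀ j < θ n, e n j = e' n j) →
      H p e = H p e' := by
    induction L with
    | nil => exact ⟨fun _ => Classical.arbitrary _, by simp⟩
    | cons a L ih =>
      obtain ⟨θ1, h1⟩ := h a (by simp)
      obtain ⟨θ2, h2⟩ := ih fun H hH => h H (by simp [hH])
      refine ⟨fun n => max (θ1 n) (θ2 n), fun H hH => ?_⟩
      rcases List.mem_cons.1 hH with rfl | hH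
      · exact fun p e e' he => h1 p e e' fun n j hj => he n j (lt_max_of_lt_left hj)
      · exact fun p e e' he => h2 H hH p e e' fun n j hj => he n j (lt_max_of_lt_right hj)
  obtain ⟨θ, hθ⟩ := this
  refine ⟨θ, fun p e e' he => ?_⟩
  unfold MS.app
  rw [ev_congr fun H hH p => hθ H hH p e e' he]

/-- One step of the recursion. -/
structure Step {J : Type} (F : J → List VV → VV) (s s' : St T X) : Prop where
  le : s' ≤ s
  dcd : ∀ x m, ∀ H ∈ s.N, Rel l f X x m H → ∃ g ∈ s'.N, Supp (YY l X) g x ∧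
    (∀ p e, (g p e).1 < om m) ∧ ∀ᶠ y in (SS T X x).U (s'.r x), ∀ p e, H p (asg X x y e) = g p e
  alg : ∀ j, ∀ L : List (Fn l f), (∀ H ∈ L, H ∈ s.N) → app (F j) L ∈ s'.N
  cut : ∀ m, ∀ H ∈ s.N, cut m H ∈ s'.N
  supl : ∀ m, ∀ H ∈ s.N, supl m H ∈ s'.N
  bet : ∀ m, cst (mkV m (bet m s.N)) ∈ s'.N

theorem exists_step (hG : GCHfrom l) (hf : ∀ n, f n ≤ l)
    (hT : ∀ n, l + 2 ≤ n → (T n).Dec (al (n - 1))) (hXl : ∀ x ∈ X, l + 2 ≤ x)
    {J : Type} [Countable J] (F : J → List VV → VV) (s : St T X) :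
    ∃ s', Step F s s' := by
  classical
  -- the conditions
  have h1 : ∀ x, ∃ r' ≤ s.r x, ∀ q : ℕ × s.N, Rel l f X x q.1 q.2.1 → Dcd T X x q.1 q.2.1 r' := by
    intro x
    have hcard : #(ℕ × s.N) ≤ al l := by
      rw [Cardinal.mk_prod]
      simp only [Cardinal.mk_nat, Cardinal.lift_aleph0, Cardinal.lift_uzero]
      calc ℵ₀ * #s.N ≤ al l * al l := mul_le_mul' (aleph0_le_al l) s.card
        _ = al l := Cardinal.mul_eq_self (aleph0_le_al l)
    exact exists_le_mem_all (SS T X x).cl hcard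
      (fun q => {r' | Rel l f X x q.1 q.2.1 → Dcd T X x q.1 q.2.1 r'})
      (fun q r => by
        by_cases h : Rel l f X x q.1 q.2.1
        · obtain ⟨r', h1, h2⟩ := exists_dcd hG hf hT hXl h r
          exact ⟨r', h1, fun _ => h2⟩
        · exact ⟨r, le_rfl, fun h' => absurd h' h⟩)
      (fun q r r' hr' hd h => by
        obtain ⟨g, h1, h2, h3⟩ := hd h
        exact ⟨g, h1, h2, (SS T X x).mono hr' h3⟩) (s.r x)
  choose r' hr' hdcd using h1
  -- the decided functions
  let G : ℕ × ℕ × s.N → Fn l f := fun q =>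
    if h : Rel l f X q.1 q.2.1 q.2.2.1 then (hdcd q.1 q.2 h).choose else cst zv
  let N1 : Set (Fn l f) := range G
  let N2 : Set (Fn l f) := range fun q : J × List s.N => app (F q.1) (q.2.map Subtype.val)
  let N3 : Set (Fn l f) := range fun q : ℕ × s.N => cut q.1 q.2.1
  let N4 : Set (Fn l f) := range fun q : ℕ × s.N => supl q.1 q.2.1
  let N5 : Set (Fn l f) := range fun m : ULift.{1} ℕ => cst (mkV m.down (bet m.down s.N))
  have hb : ℵ₀ ≤ al l := aleph0_le_al l
  have c0 : #(ℕ × s.N) ≤ al l := by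
    rw [Cardinal.mk_prod]
    simp only [Cardinal.mk_nat, Cardinal.lift_aleph0, Cardinal.lift_uzero]
    calc ℵ₀ * #s.N ≤ al l * al l := mul_le_mul' hb s.card
      _ = al l := Cardinal.mul_eq_self hb
  have c1 : #N1 ≤ al l := by
    refine Cardinal.mk_range_le.trans ?_
    rw [Cardinal.mk_prod]
    simp only [Cardinal.mk_nat, Cardinal.lift_aleph0, Cardinal.lift_uzero]
    calc ℵ₀ * #(ℕ × s.N) ≤ al l * al l := mul_le_mul' hb c0
      _ = al l := Cardinal.mul_eq_self hb
  have c2 : #N2 ≤ al l := by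
    refine Cardinal.mk_range_le.trans ?_
    rw [Cardinal.mk_prod]
    have h2 : #(List s.N) ≤ al l := by
      refine (Cardinal.mk_list_le_max _).trans (max_le hb s.card)
    have h3 : Cardinal.lift.{1} #J ≤ al l := by
      have : #J ≤ ℵ₀ := Cardinal.mk_le_aleph0
      have := Cardinal.lift_le.{1}.2 this
      rw [Cardinal.lift_aleph0] at this
      exact this.trans hb
    calc Cardinal.lift.{1} #J * Cardinal.lift.{0} #(List s.N) ≤ al l * al l :=
          mul_le_mul' h3 (by simpa using h2)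
      _ = al l := Cardinal.mul_eq_self hb
  have c3 : #N3 ≤ al l := Cardinal.mk_range_le.trans c0
  have c4 : #N4 ≤ al l := Cardinal.mk_range_le.trans c0
  have c5 : #N5 ≤ al l := Cardinal.mk_range_le.trans (by simpa using hb)
  have hun : ∀ A B : Set (Fn l f), #A ≤ al l → #B ≤ al l → #(A ∪ B : Set (Fn l f)) ≤ al l := by
    intro A B hA hB
    refine (Cardinal.mk_union_le A B).trans ?_
    calc #A + #B ≤ al l + al l := add_le_add hA hB
      _ = al l := Cardinal.add_eq_self hb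
  refine ⟨⟨s.N ∪ (N1 ∪ (N2 ∪ (N3 ∪ (N4 ∪ N5)))), hun _ _ s.card (hun _ _ c1 (hun _ _ c2
    (hun _ _ c3 (hun _ _ c4 c5)))), ?_, r'⟩, ⟨⟨subset_union_left, hr'⟩, ?_, ?_, ?_, ?_, ?_⟩⟩
  · rintro H (h | h | h | h | h | h)
    · exact s.fs H h
    · obtain ⟨q, rfl⟩ := h
      by_cases hq : Rel l f X q.1 q.2.1 q.2.2.1
      · simp only [G, dif_pos hq]
        exact ⟨_, (hdcd q.1 q.2 hq).choose_spec.1⟩
      · simp only [G, dif_neg hq]
        exact ⟨0, Supp.cst _ _ _⟩
    · obtain ⟨q, rfl⟩ := h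
      refine Supp.app _ fun H hH => ?_
      obtain ⟨H', _, rfl⟩ := List.mem_map.1 hH
      exact s.fs H'.1 H'.2
    · obtain ⟨q, rfl⟩ := h
      obtain ⟨k, hk⟩ := s.fs q.2.1 q.2.2
      exact ⟨k, hk.cut _⟩
    · obtain ⟨q, rfl⟩ := h
      obtain ⟨k, hk⟩ := s.fs q.2.1 q.2.2
      exact ⟨k, hk.supl _⟩
    · obtain ⟨q, rfl⟩ := h
      exact ⟨0, Supp.cst _ _ _⟩
  · intro x m H hH hrel
    have hspec := (hdcd x (m, ⟨H, hH⟩) hrel).choose_spec
    have hGe : G (x, m, ⟨H, hH⟩) = (hdcd x (m, ⟨H, hH⟩) hrel).choose := by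
      simp only [G]
      exact dif_pos hrel
    exact ⟨_, Or.inr (Or.inl ⟨(x, m, ⟨H, hH⟩), hGe⟩), hspec⟩
  · intro j L hL
    refine Or.inr (Or.inr (Or.inl ⟨(j, L.attach.map fun H => ⟨H.1, hL H.1 H.2⟩), ?_⟩))
    have : (L.attach.map fun H => (⟨H.1, hL H.1 H.2⟩ : s.N)).map Subtype.val = L := by
      rw [List.map_map]
      exact List.attach_map_subtype_val L
    simp only [this]
  · intro m H hH
    exact Or.inr (Or.inr (Or.inr (Or.inl ⟨(m, ⟨H, hH⟩), rfl⟩)))
  · intro m H hH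
    exact Or.inr (Or.inr (Or.inr (Or.inr (Or.inl ⟨(m, ⟨H, hH⟩), rfl⟩))))
  · intro m
    exact Or.inr (Or.inr (Or.inr (Or.inr (Or.inr ⟨⟨m⟩, rfl⟩))))

end Pool.Agent.Lib_helper73.MS
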