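import Mathlib

/-!
# Mutual stationarity: closed partial orders and systems of filters
-/

namespace Pool.Agent.Lib_helper73.MS

open Cardinal Ordinal Set Filter

universe u v

/-- Every descending sequence of length less than `Ω` has a lower bound. -/
def SeqClosed (R : Type u) [Preorder R] (Ω : Ordinal.{0}) : Prop :=
  ∀ o < Ω, ∀ s : Set.Iio o → R, Antitone s → ∃ b, ∀ i, b ≤ s i

theorem exists_seq {R : Type u} [Preorder R] {Ω : Ordinal.{0}} (hR : SeqClosed R Ω)
    (F : Ordinal.{0} → R → R) (hF : ∀ i r, F i r ≤ r) (r0 : R) :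
    ∃ s : Ordinal.{0} → R, (∀ i < Ω, s i ≤ r0) ∧ (∀ i < Ω, ∀ j < i, s i ≤ F j (s j)) := by
  classical
  let step : (i : Ordinal.{0}) → ((j : Ordinal.{0}) → j < i → R) → R := fun i s =>
    if h : ∃ b, b ≤ r0 ∧ ∀ j (hj : j < i), b ≤ F j (s j hj) then h.choose else r0
  let s : Ordinal.{0} → R := WellFounded.fix Ordinal.lt_wf step
  have hs : ∀ i, s i = step i (fun j _ => s j) := fun i => WellFounded.fix_eq Ordinal.lt_wf step i
  have key : ∀ i < Ω, (s i ≤ r0 ∧ ∀ j < i, s i ≤ F j (s j)) := by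
    intro i
    induction i using WellFoundedLT.induction with
    | ind i ih =>
      intro hi
      have ex : ∃ b, b ≤ r0 ∧ ∀ j (_ : j < i), b ≤ F j (s j) := by
        rcases eq_or_ne i 0 with rfl | h0
        · exact ⟨r0, le_rfl, fun j hj => absurd hj (by simp)⟩
        · have hanti : Antitone (fun j : Set.Iio i => F j (s j)) := by
            intro j j' hjj
            rcases eq_or_lt_of_le hjj with h | h
            · rw [h]
            · exact (hF _ _).trans ((ih j' j'.2 (lt_trans j'.2 hi)).2 j h)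
          obtain ⟨b, hb⟩ := hR i hi (fun j => F j (s j)) hanti
          have hpos : (0 : Ordinal) < i := pos_iff_ne_zero.2 h0
          refine ⟨b, (hb ⟨0, hpos⟩).trans ((hF _ _).trans (ih 0 hpos (hpos.trans hi)).1),
            fun j hj => hb ⟨j, hj⟩⟩
      have hsi : s i = ex.choose := by
        rw [hs i]
        exact dif_pos ex
      rw [hsi]
      exact ex.choose_spec
  exact ⟨s, fun i hi => (key i hi).1, fun i hi j hj => (key i hi).2 j hj⟩

theorem mk_Iio_omega (l : ℕ) : #(Set.Iio (ω_ (l : Ordinal.{0}))) = ℵ_ (l : Ordinal.{1}) := by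
  rw [Cardinal.mk_Iio_ordinal]
  simp

theorem exists_le_mem_all {R : Type u} [Preorder R] {l : ℕ}
    (hR : SeqClosed R (ω_ ((l + 1 : ℕ) : Ordinal.{0})))
    {I : Type 1} (hI : #I ≤ ℵ_ (l : Ordinal.{1})) (D : I → Set R)
    (hD : ∀ i r, ∃ r' ≤ r, r' ∈ D i) (hDo : ∀ i r r', r' ≤ r → r ∈ D i → r' ∈ D i) (r0 : R) :
    ∃ r ≤ r0, ∀ i, r ∈ D i := by
  classical
  rw [← mk_Iio_omega l] at hI
  obtain ⟨e⟩ := Cardinal.le_def _ _ |>.1 hI
  let F : Ordinal.{0} → R → R := fun j r =>
    if h : ∃ i, (e i).1 = j then (hD h.choose r).choose else r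
  have hF : ∀ i r, F i r ≤ r := by
    intro i r
    by_cases h : ∃ j, (e j).1 = i
    · simp only [F, dif_pos h]
      exact (hD h.choose r).choose_spec.1
    · simp only [F, dif_neg h]
      exact le_rfl
  obtain ⟨s, h1, h2⟩ := exists_seq hR F hF r0
  have hlt : ω_ (l : Ordinal.{0}) < ω_ ((l + 1 : ℕ) : Ordinal.{0}) := by
    simp
  refine ⟨s (ω_ (l : Ordinal.{0})), h1 _ hlt, fun i => ?_⟩
  have hi : (e i).1 < ω_ (l : Ordinal.{0}) := (e i).2
  have := h2 _ hlt _ hi
  refine hDo i _ _ this ?_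
  have hex : ∃ j, (e j).1 = (e i).1 := ⟨i, rfl⟩
  have hch : hex.choose = i := e.injective (Subtype.ext hex.choose_spec)
  simp only [F, dif_pos hex]
  have := (hD hex.choose (s (e i).1)).choose_spec.2
  rw [hch] at this
  simpa [hch] using this

/-- A system of filters on `E`, indexed by a partial order which is closed under descending
sequences of length less than `ω_(l+1)`; the filters are proper and `ℵ_(l+1)`-complete. -/
structure Sys (l : ℕ) (E : Type 1) where
  R : Type 1
  [pre : Preorder R]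
  [ne : Nonempty R]
  U : R → Filter E
  mono : ∀ {r r' : R}, r' ≤ r → U r' ≤ U r
  nb : ∀ r, (U r).NeBot
  cl : SeqClosed R (ω_ ((l + 1 : ℕ) : Ordinal.{0}))
  cc : ∀ r, CardinalInterFilter (U r) (ℵ_ ((l + 1 : ℕ) : Ordinal.{1}))

attribute [instance] Sys.pre Sys.ne

/-- Functions to sets of size at most `μ` can be decided. -/
def Sys.Dec {l : ℕ} {E : Type 1} (S : Sys l E) (μ : Cardinal.{1}) : Prop :=
  ∀ (r : S.R) (Z : Type 1), #Z ≤ μ → ∀ h : E → Z, ∃ r' ≤ r, ∃ z, ∀ᶠ e in S.U r', h e = z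

theorem Sys.Dec.mono {l : ℕ} {E : Type 1} {S : Sys l E} {μ ν : Cardinal.{1}} (h : S.Dec μ)
    (hν : ν ≤ μ) : S.Dec ν := fun r Z hZ g => h r Z (hZ.trans hν) g

/-- The trivial system. -/
def Sys.triv (l : ℕ) {E : Type 1} (e : E) : Sys l E where
  R := PUnit
  U := fun _ => pure e
  mono := fun _ => le_rfl
  nb := fun _ => inferInstance
  cl := fun _ _ _ _ => ⟨PUnit.unit, fun _ => trivial⟩
  cc := fun _ => ⟨fun S _ h => by simpa using h⟩

theorem Sys.triv_dec (l : ℕ) {E : Type 1} (e : E) (μ : Cardinal.{1}) : (Sys.triv l e).Dec μ :=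
  fun r _ _ h => ⟨r, le_rfl, h e, by simp [Sys.triv]⟩

section Ext

variable {l : ℕ} {E : ℕ → Type 1} (S : Sys l (∀ n, E n)) (a : ℕ) (T : Sys l (E a))

/-- The conditions of the extended system. -/
structure ExtR where
  fst : S.R
  snd : (∀ n, E n) → T.R

instance : Preorder (ExtR S a T) where
  le p q := p.fst ≤ q.fst ∧ ∀ᶠ e in S.U p.fst, p.snd e ≤ q.snd e
  le_refl p := ⟨le_rfl, Eventually.of_forall fun _ => le_rfl⟩
  le_trans p q r h1 h2 := ⟨h1.1.trans h2.1, by
    filter_upwards [h1.2, S.mono h1.1 h2.2] with e he1 he2 using he1.trans he2⟩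

theorem ExtR.le_iff {p q : ExtR S a T} :
    p ≤ q ↔ p.fst ≤ q.fst ∧ ∀ᶠ e in S.U p.fst, p.snd e ≤ q.snd e := Iff.rfl

/-- The filters of the extended system. -/
def ExtR.U (p : ExtR S a T) : Filter (∀ n, E n) :=
  (S.U p.fst).bind fun e => (T.U (p.snd e)).map fun s => Function.update e a s

theorem ExtR.eventually {p : ExtR S a T} {q : (∀ n, E n) → Prop} :
    (∀ᶠ y in p.U, q y) ↔
      ∀ᶠ e in S.U p.fst, ∀ᶠ s in T.U (p.snd e), q (Function.update e a s) := by
  simp only [ExtR.U, Filter.eventually_bind, Filter.eventually_map]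

/-- The extended system: add the coordinate `a` below. -/
def Sys.ext : Sys l (∀ n, E n) where
  R := ExtR S a T
  ne := ⟨⟨Classical.arbitrary _, fun _ => Classical.arbitrary _⟩⟩
  U := ExtR.U S a T
  mono := by
    intro p q h A hA
    have hA' : ∀ᶠ y in ExtR.U S a T p, y ∈ A := hA
    rw [ExtR.eventually] at hA'
    have : ∀ᶠ y in ExtR.U S a T q, y ∈ A := by
      rw [ExtR.eventually]
      filter_upwards [S.mono h.1 hA', h.2] with e h1 h2
      exact T.mono h2 h1
    exact this
  nb := by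
    intro p
    rw [Filter.neBot_iff]
    intro h0
    have h1 : ∀ᶠ y in ExtR.U S a T p, False := by rw [h0]; exact Filter.eventually_bot
    rw [ExtR.eventually] at h1
    have := S.nb p.fst
    obtain ⟨e, he⟩ := h1.exists
    have := T.nb (p.snd e)
    exact he.exists.choose_spec
  cl := by
    intro o ho s hs
    classical
    have hcard : #(Set.Iio o × Set.Iio o) < ℵ_ ((l + 1 : ℕ) : Ordinal.{1}) := by
      have h1 : #(Set.Iio o) ≤ ℵ_ (l : Ordinal.{1}) := by
        rw [Cardinal.mk_Iio_ordinal]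
        have h2 : o.card < ℵ_ ((l + 1 : ℕ) : Ordinal.{0}) := by
          rw [← Cardinal.lt_ord, Cardinal.ord_aleph]
          exact ho
        have h3 : o.card ≤ ℵ_ (l : Ordinal.{0}) := by
          rw [← Order.lt_succ_iff, Cardinal.succ_aleph]
          simpa using h2
        have h4 := Cardinal.lift_le.{1}.2 h3
        simpa using h4
      rw [Cardinal.mk_prod]
      simp only [Cardinal.lift_id]
      calc #(Set.Iio o) * #(Set.Iio o) ≤ ℵ_ (l : Ordinal.{1}) * ℵ_ (l : Ordinal.{1}) :=
            mul_le_mul' h1 h1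
        _ = ℵ_ (l : Ordinal.{1}) := Cardinal.mul_eq_self (Cardinal.aleph0_le_aleph _)
        _ < _ := by simp
    obtain ⟨r, hr⟩ := S.cl o ho (fun i => (s i).fst) (fun i j h => (hs h).1)
    have hev : ∀ᶠ e in S.U r, ∀ ij : Set.Iio o × Set.Iio o, ij.1 ≤ ij.2 →
        (s ij.2).snd e ≤ (s ij.1).snd e := by
      have := S.cc r
      rw [Filter.eventually_cardinal_forall hcard]
      rintro ⟨i, j⟩
      by_cases hij : i ≤ j
      · filter_upwards [S.mono (hr j) (hs hij).2] with e he _ using he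
      · exact Eventually.of_forall fun e h => absurd h hij
    let ρ : (∀ n, E n) → T.R := fun e =>
      if h : ∃ b, ∀ i, b ≤ (s i).snd e then h.choose else Classical.arbitrary _
    refine ⟨⟨r, ρ⟩, fun i => ⟨hr i, ?_⟩⟩
    filter_upwards [hev] with e he
    have hex : ∃ b, ∀ i, b ≤ (s i).snd e := T.cl o ho (fun i => (s i).snd e)
      (fun i j hij => he (i, j) hij)
    simp only [ρ, dif_pos hex]
    exact hex.choose_spec i
  cc := by
    intro p
    refine ⟨fun A hA h => ?_⟩
    have : ∀ᶠ y in ExtR.U S a T p, ∀ B ∈ A, y ∈ B := by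
      rw [ExtR.eventually]
      have h1 : ∀ᶠ e in S.U p.fst, ∀ B ∈ A, ∀ᶠ s in T.U (p.snd e), Function.update e a s ∈ B := by
        have := S.cc p.fst
        rw [Filter.eventually_cardinal_ball hA]
        intro B hB
        have := h B hB
        exact (ExtR.eventually S a T (q := fun y => y ∈ B)).1 this
      filter_upwards [h1] with e he
      have := T.cc (p.snd e)
      rw [Filter.eventually_cardinal_ball hA]
      exact he
    filter_upwards [this] with y hy
    exact fun B hB => hy B hB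

theorem Sys.ext_dec {μ : Cardinal.{1}} (hS : S.Dec μ) (hT : T.Dec μ) : (S.ext a T).Dec μ := by
  intro p Z hZ h
  choose ρ hρ z hz using fun e : (∀ n, E n) =>
    hT (p.snd e) Z hZ (fun s => h (Function.update e a s))
  obtain ⟨r', hr', z', hz'⟩ := hS p.fst Z hZ z
  refine ⟨⟨r', ρ⟩, ⟨hr', Eventually.of_forall hρ⟩, z', ?_⟩
  have : ∀ᶠ y in ExtR.U S a T ⟨r', ρ⟩, h y = z' := by
    rw [ExtR.eventually]
    filter_upwards [hz'] with e he
    filter_upwards [hz e] with s hs
    rw [hs, he]
  exact this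

end Ext

end Pool.Agent.Lib_helper73.MS
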